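import Pool.Agent.H579Z.Area.Face

set_option autoImplicit false

/-! Clusters of points at several scales around sites in general position: integer estimates. -/

namespace Pool.Agent.H579Z.Area

abbrev Z2 : Type := ℤ × ℤ

def cr (u v : Z2) : ℤ := u.1 * v.2 - u.2 * v.1

def dz (a b c : Z2) : ℤ := (b.1 - a.1) * (c.2 - a.2) - (b.2 - a.2) * (c.1 - a.1)

def Bd (X : ℤ) (u : Z2) : Prop := |u.1| ≤ X ∧ |u.2| ≤ X

theorem cr_le {X Y : ℤ} {u v : Z2} (hu : Bd X u) (hv : Bd Y v) : |cr u v| ≤ 2 * X * Y := by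
  have hX : 0 ≤ X := (abs_nonneg _).trans hu.1
  have h1 : |u.1 * v.2| ≤ X * Y := by
    rw [abs_mul]; exact mul_le_mul hu.1 hv.2 (abs_nonneg _) hX
  have h2 : |u.2 * v.1| ≤ X * Y := by
    rw [abs_mul]; exact mul_le_mul hu.2 hv.1 (abs_nonneg _) hX
  have := abs_sub (u.1 * v.2) (u.2 * v.1)
  simp only [cr]
  linarith

theorem Bd.sub {X : ℤ} {u v : Z2} (hu : Bd X u) (hv : Bd X v) : Bd (2 * X) (u - v) := by
  have h1 := abs_sub u.1 v.1
  have h2 := abs_sub u.2 v.2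
  constructor
  · simp only [Prod.fst_sub]; linarith [hu.1, hv.1]
  · simp only [Prod.snd_sub]; linarith [hu.2, hv.2]

theorem dz_swap (a b c : Z2) : dz b a c = -dz a b c := by simp only [dz]; ring
theorem dz_rot (a b c : Z2) : dz b c a = dz a b c := by simp only [dz]; ring

theorem dz_expand (B : ℤ) (P1 P2 P3 o1 o2 o3 : Z2) :
    dz (B • P1 + o1) (B • P2 + o2) (B • P3 + o3) = B ^ 2 * dz P1 P2 P3 +
      B * (cr (P2 - P1) (o3 - o1) + cr (o2 - o1) (P3 - P1)) + cr (o2 - o1) (o3 - o1) := by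
  simp only [dz, cr, Prod.fst_add, Prod.snd_add, Prod.smul_fst, Prod.smul_snd, smul_eq_mul,
    Prod.fst_sub, Prod.snd_sub]
  ring

/-- stability of orientations under scaling and bounded offsets -/
theorem pert {B M R : ℤ} {P1 P2 P3 o1 o2 o3 : Z2} (hB : 0 ≤ B) (h2 : Bd M (P2 - P1))
    (h3 : Bd M (P3 - P1)) (k1 : Bd R o1) (k2 : Bd R o2) (k3 : Bd R o3) :
    (0 < dz P1 P2 P3 → B ^ 2 - 8 * M * R * B - 8 * R ^ 2 ≤
      dz (B • P1 + o1) (B • P2 + o2) (B • P3 + o3)) ∧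
    (dz P1 P2 P3 < 0 → dz (B • P1 + o1) (B • P2 + o2) (B • P3 + o3) ≤
      -(B ^ 2 - 8 * M * R * B - 8 * R ^ 2)) := by
  have e1 := abs_le.1 (cr_le h2 (k3.sub k1))
  have e2 := abs_le.1 (cr_le (k2.sub k1) h3)
  have e3 := abs_le.1 (cr_le (k2.sub k1) (k3.sub k1))
  rw [dz_expand]
  have f1 := mul_le_mul_of_nonneg_left e1.1 hB
  have f2 := mul_le_mul_of_nonneg_left e1.2 hB
  have f3 := mul_le_mul_of_nonneg_left e2.1 hB
  have f4 := mul_le_mul_of_nonneg_left e2.2 hB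
  constructor
  · intro h
    have := mul_le_mul_of_nonneg_left (show 1 ≤ dz P1 P2 P3 by omega) (sq_nonneg B)
    nlinarith [e3.1]
  · intro h
    have := mul_le_mul_of_nonneg_left (show dz P1 P2 P3 ≤ -1 by omega) (sq_nonneg B)
    nlinarith [e3.2]

/-- Sites in general position with options, and scales. -/
structure Cfg where
  N : ℕ
  P : ℕ → Z2
  opt : ℕ → ℕ → Prop
  M : ℤ
  L : ℤ
  g : ℕ → ℤ
  c0 : ℤ
  C : ℤ
  B : ℤ
  Θ : ℤ

structure Cfg.Good (K : Cfg) : Prop where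
  gp : ∀ i < K.N, ∀ j < K.N, ∀ k < K.N, i ≠ j → i ≠ k → j ≠ k → dz (K.P i) (K.P j) (K.P k) ≠ 0
  xne : ∀ i < K.N, ∀ j < K.N, i ≠ j → (K.P i).1 ≠ (K.P j).1
  bd : ∀ i < K.N, ∀ j < K.N, Bd K.M (K.P i - K.P j)
  optlt : ∀ t y, K.opt t y → t < K.N ∧ y < K.N ∧ (K.P t).1 < (K.P y).1 ∧ ∀ y', ¬ K.opt y y'
  hM : 1 ≤ K.M
  hL : 4 * K.M ^ 2 < K.L
  gpos : ∀ i, 1 ≤ K.g i
  gsep : ∀ i j, i < j → j < K.N → K.L * K.g i ≤ K.g j
  hc0 : 4 * K.M ≤ K.c0
  hC : ∀ i < K.N, K.c0 * K.g i ≤ K.C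
  hC1 : 1 ≤ K.C
  hΘ1 : 2 * K.C * K.M < K.Θ
  hΘ2 : 2 * K.Θ ≤ K.c0 ^ 2
  hB : 8 * K.M * (K.C * K.M) + 8 * (K.C * K.M) ^ 2 + K.Θ + K.M + 2 * (K.C * K.M) ≤ K.B

namespace Cfg

variable (K : Cfg)

def tgt (i : ℕ) : Prop := ∃ y, K.opt i y

def use (i k : ℕ) : Prop := (K.P k).1 < (K.P i).1 ∨ K.opt i k

def w (i k : ℕ) : Z2 := if (K.P k).1 < (K.P i).1 then K.P k - K.P i else K.P i - K.P k

def uo (i k : ℕ) : Z2 := (K.c0 * K.g k) • K.w i k

def UOff (i : ℕ) (o : Z2) : Prop := ∃ k < K.N, K.use i k ∧ o = K.uo i k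

def Off (i : ℕ) (o : Z2) : Prop :=
  (¬ K.tgt i ∧ o = 0) ∨ (K.tgt i ∧ (o = (0, 1) ∨ o = (0, -1) ∨ K.UOff i o))

def Sz : Set Z2 := {x | ∃ i < K.N, ∃ o, K.Off i o ∧ x = K.B • K.P i + o}

variable {K}

theorem Good.use_ne (h : K.Good) {i k : ℕ} (hu : K.use i k) : k ≠ i := by
  rintro rfl
  rcases hu with hu | hu
  · exact lt_irrefl _ hu
  · exact lt_irrefl _ (h.optlt _ _ hu).2.2.1

theorem Good.w_neg (h : K.Good) {i k : ℕ} (hu : K.use i k) : (K.w i k).1 < 0 := by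
  unfold w
  split_ifs with h1
  · simp only [Prod.fst_sub]; omega
  · rcases hu with hu | hu
    · exact absurd hu h1
    · have := (h.optlt _ _ hu).2.2.1
      simp only [Prod.fst_sub]; omega

theorem Good.w_bd (h : K.Good) {i k : ℕ} (hi : i < K.N) (hk : k < K.N) : Bd K.M (K.w i k) := by
  unfold w
  split_ifs
  · exact h.bd _ hk _ hi
  · exact h.bd _ hi _ hk

theorem w_cr (i k : ℕ) (v : Z2) :
    cr (K.w i k) v = cr (K.P k - K.P i) v ∨ cr (K.w i k) v = -cr (K.P k - K.P i) v := by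
  unfold w
  split_ifs
  · exact Or.inl rfl
  · right; simp only [cr, Prod.fst_sub, Prod.snd_sub]; ring

theorem Good.w_cr_ne (h : K.Good) {i k m : ℕ} (hi : i < K.N) (hk : k < K.N) (hm : m < K.N)
    (hki : k ≠ i) (hmi : m ≠ i) (hkm : k ≠ m) : cr (K.w i k) (K.P m - K.P i) ≠ 0 := by
  have h1 := h.gp i hi k hk m hm hki.symm hmi.symm hkm
  have h2 : cr (K.P k - K.P i) (K.P m - K.P i) = dz (K.P i) (K.P k) (K.P m) := rfl
  rcases w_cr (K := K) i k (K.P m - K.P i) with e | e <;> rw [e, h2]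
  · exact h1
  · exact neg_ne_zero.2 h1

theorem cr_anti (u v : Z2) : cr u v = -cr v u := by simp only [cr]; ring

theorem Good.w_w_ne (h : K.Good) {i k m : ℕ} (hi : i < K.N) (hk : k < K.N) (hm : m < K.N)
    (hki : k ≠ i) (hmi : m ≠ i) (hkm : k ≠ m) : cr (K.w i k) (K.w i m) ≠ 0 := by
  have h1 := h.w_cr_ne hi hk hm hki hmi hkm
  rw [cr_anti]
  rw [cr_anti] at h1
  rcases w_cr (K := K) i m (K.w i k) with e | e <;> rw [e]
  · exact h1
  · simpa using h1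

theorem Good.c0_pos (h : K.Good) : 0 < K.c0 := by linarith [h.hc0, h.hM]

theorem Good.c_ge (h : K.Good) (k : ℕ) : K.c0 ≤ K.c0 * K.g k := by
  nlinarith [h.c0_pos, h.gpos k]

theorem Good.R_ge (h : K.Good) : K.C ≤ K.C * K.M := by nlinarith [h.hC1, h.hM]

theorem Good.uo_bd (h : K.Good) {i k : ℕ} (hi : i < K.N) (hk : k < K.N) :
    Bd (K.C * K.M) (K.uo i k) := by
  have h1 := h.w_bd hi hk
  have h2 : |K.c0 * K.g k| ≤ K.C := by
    rw [abs_of_nonneg (by linarith [h.c_ge k, h.c0_pos])]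
    exact h.hC k hk
  have h3 : 0 ≤ K.C := by linarith [h.hC1]
  constructor
  · simp only [uo, Prod.smul_fst, smul_eq_mul]
    rw [abs_mul]
    exact mul_le_mul h2 h1.1 (abs_nonneg _) h3
  · simp only [uo, Prod.smul_snd, smul_eq_mul]
    rw [abs_mul]
    exact mul_le_mul h2 h1.2 (abs_nonneg _) h3

theorem Good.uo_neg (h : K.Good) {i k : ℕ} (hu : K.use i k) : (K.uo i k).1 < 0 := by
  simp only [uo, Prod.smul_fst, smul_eq_mul]
  exact mul_neg_of_pos_of_neg (by linarith [h.c_ge k, h.c0_pos]) (h.w_neg hu)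

theorem Good.off_bd (h : K.Good) {i : ℕ} {o : Z2} (hi : i < K.N) (ho : K.Off i o) :
    Bd (K.C * K.M) o ∧ o.1 ≤ 0 := by
  have h1 : 1 ≤ K.C * K.M := h.hC1.trans h.R_ge
  rcases ho with ⟨-, rfl⟩ | ⟨-, rfl | rfl | ⟨k, hk, hu, rfl⟩⟩
  · exact ⟨⟨by simp; linarith, by simp; linarith⟩, le_rfl⟩
  · exact ⟨⟨by simp; linarith, by simpa using h1⟩, le_rfl⟩
  · exact ⟨⟨by simp; linarith, by simpa using h1⟩, le_rfl⟩
  · exact ⟨h.uo_bd hi hk, (h.uo_neg hu).le⟩

theorem Good.Θ_pos (h : K.Good) : 0 < K.Θ := by nlinarith [h.hΘ1, h.hC1, h.hM]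

theorem Good.B_facts (h : K.Good) : 0 < K.B ∧ 8 * (K.C * K.M) ^ 2 + K.Θ + 2 * (K.C * K.M) ≤ K.B ∧
    K.Θ ≤ K.B ^ 2 - 8 * K.M * (K.C * K.M) * K.B - 8 * (K.C * K.M) ^ 2 ∧
    K.B * K.M + 2 * (K.C * K.M) ≤ K.B ^ 2 - 8 * K.M * (K.C * K.M) * K.B - 8 * (K.C * K.M) ^ 2 := by
  have h1 : 1 ≤ K.C * K.M := h.hC1.trans h.R_ge
  have h2 := h.Θ_pos
  have h3 := h.hM
  have h4 := h.hB
  set R := K.C * K.M
  have h5 : 0 ≤ K.M * R := by positivity
  have h6 : 0 ≤ R ^ 2 := by positivity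
  have h7 : 1 ≤ K.B := by nlinarith
  have h8 := mul_le_mul_of_nonneg_left h4 (show 0 ≤ K.B by linarith)
  have h9 : 8 * R ^ 2 + K.Θ + 2 * R ≤ K.B * (8 * R ^ 2 + K.Θ + 2 * R) := by nlinarith
  have h10 : 0 ≤ K.B * K.M := by positivity
  refine ⟨by linarith, by nlinarith, by nlinarith, by nlinarith⟩

/-- three different sites -/
theorem Good.three (h : K.Good) {i j k : ℕ} {o1 o2 o3 : Z2} (hi : i < K.N) (hj : j < K.N)
    (hk : k < K.N) (ij : i ≠ j) (ik : i ≠ k) (jk : j ≠ k) (k1 : Bd (K.C * K.M) o1)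
    (k2 : Bd (K.C * K.M) o2) (k3 : Bd (K.C * K.M) o3) :
    K.B ^ 2 - 8 * K.M * (K.C * K.M) * K.B - 8 * (K.C * K.M) ^ 2 ≤
      |dz (K.B • K.P i + o1) (K.B • K.P j + o2) (K.B • K.P k + o3)| ∧
    0 < dz (K.B • K.P i + o1) (K.B • K.P j + o2) (K.B • K.P k + o3) *
      dz (K.P i) (K.P j) (K.P k) := by
  obtain ⟨b1, -, b3, -⟩ := h.B_facts
  have := h.Θ_pos
  obtain ⟨p1, p2⟩ := pert (B := K.B) b1.le (h.bd j hj i hi) (h.bd k hk i hi) k1 k2 k3
  rcases lt_or_gt_of_ne (h.gp i hi j hj k hk ij ik jk) with hd | hd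
  · have := p2 hd
    exact ⟨le_abs.2 (Or.inr (by linarith)), mul_pos_of_neg_of_neg (by linarith) hd⟩
  · have := p1 hd
    exact ⟨le_abs.2 (Or.inl (by linarith)), mul_pos (by linarith) hd⟩

theorem cr_uo (i k : ℕ) (v : Z2) : cr (K.uo i k) v = K.c0 * K.g k * cr (K.w i k) v := by
  simp only [cr, uo, Prod.smul_fst, Prod.smul_snd, smul_eq_mul]; ring

theorem cr_sub_left (a b v : Z2) : cr (a - b) v = cr a v - cr b v := by
  simp only [cr, Prod.fst_sub, Prod.snd_sub]; ring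

theorem one_le_abs_int {x : ℤ} (h : x ≠ 0) : 1 ≤ |x| := Int.one_le_abs h

theorem Good.uu_ne (h : K.Good) {i m j k : ℕ} (hi : i < K.N) (hm : m < K.N) (hj : j < K.N)
    (hk : k < K.N) (mi : m ≠ i) (ji : j ≠ i) (ki : k ≠ i) (jk : j < k) :
    cr (K.uo i j) (K.P m - K.P i) ≠ cr (K.uo i k) (K.P m - K.P i) := by
  rw [cr_uo, cr_uo]
  intro e
  have e2 : K.g j * cr (K.w i j) (K.P m - K.P i) = K.g k * cr (K.w i k) (K.P m - K.P i) := by
    apply mul_left_cancel₀ h.c0_pos.ne'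
    linarith
  by_cases hkm : k = m
  · subst hkm
    have h1 := h.w_cr_ne hi hj hk ji ki jk.ne
    have h2 : cr (K.w i k) (K.P k - K.P i) = 0 := by
      rcases w_cr (K := K) i k (K.P k - K.P i) with e | e <;> rw [e] <;> simp only [cr] <;> ring
    rw [h2, mul_zero] at e2
    exact mul_ne_zero (by linarith [h.gpos j]) h1 e2
  · have h1 := one_le_abs_int (h.w_cr_ne hi hk hm ki mi hkm)
    have h2 := cr_le (h.w_bd hi hj) (h.bd m hm i hi)
    have h3 := congrArg abs e2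
    rw [abs_mul, abs_mul, abs_of_nonneg (by linarith [h.gpos j] : 0 ≤ K.g j),
      abs_of_nonneg (by linarith [h.gpos k] : 0 ≤ K.g k)] at h3
    have h4 := h.gsep j k jk hk
    have h5 := h.gpos j
    have h6 := h.gpos k
    have h7 := h.hL
    have h8 := mul_le_mul_of_nonneg_left h2 (show 0 ≤ K.g j by linarith)
    have h9 := mul_le_mul_of_nonneg_left h1 (show 0 ≤ K.g k by linarith)
    have h10 := mul_lt_mul_of_pos_right h7 (show 0 < K.g j by linarith)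
    nlinarith [sq_nonneg K.M]

theorem Good.pu_ne (h : K.Good) {i m k : ℕ} (hi : i < K.N) (hm : m < K.N) (mi : m ≠ i) {e : ℤ}
    (he : e = 1 ∨ e = -1) :
    cr ((0, e) : Z2) (K.P m - K.P i) ≠ cr (K.uo i k) (K.P m - K.P i) := by
  rw [cr_uo]
  intro e1
  have h1 : (K.P m - K.P i).1 ≠ 0 := by
    simp only [Prod.fst_sub]
    exact sub_ne_zero.2 (h.xne m hm i hi mi)
  have h2 : |cr ((0, e) : Z2) (K.P m - K.P i)| = |(K.P m - K.P i).1| := by
    rcases he with rfl | rfl <;> simp [cr, abs_sub_comm]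
  by_cases h3 : cr (K.w i k) (K.P m - K.P i) = 0
  · rw [h3, mul_zero] at e1
    rw [e1] at h2
    exact h1 (abs_eq_zero.1 h2.symm)
  · have h4 := one_le_abs_int h3
    rw [e1, abs_mul, abs_of_nonneg (by linarith [h.c_ge k, h.c0_pos])] at h2
    have h5 := (h.bd m hm i hi).1
    have h6 := h.c_ge k
    have h7 := mul_le_mul_of_nonneg_left h4 (show 0 ≤ K.c0 * K.g k by linarith [h.c0_pos])
    linarith [h.hc0, h.hM]

/-- two points at one site, the third at another one -/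
theorem Good.two (h : K.Good) {i m : ℕ} {o1 o2 o3 : Z2} (hi : i < K.N) (hm : m < K.N)
    (mi : m ≠ i) (k1 : K.Off i o1) (k2 : K.Off i o2) (k3 : K.Off m o3) (h12 : o1 ≠ o2) :
    K.Θ ≤ |dz (K.B • K.P i + o1) (K.B • K.P i + o2) (K.B • K.P m + o3)| := by
  have key : cr o1 (K.P m - K.P i) ≠ cr o2 (K.P m - K.P i) := by
    have h1 : (K.P m - K.P i).1 ≠ 0 := by
      simp only [Prod.fst_sub]
      exact sub_ne_zero.2 (h.xne m hm i hi mi)
    rcases k1 with ⟨a, rfl⟩ | ⟨a, k1⟩ <;> rcases k2 with ⟨b, rfl⟩ | ⟨b, k2⟩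
    · exact absurd rfl h12
    · exact absurd b a
    · exact absurd a b
    rcases k1 with rfl | rfl | ⟨j, hj, uj, rfl⟩ <;> rcases k2 with rfl | rfl | ⟨k, hk, uk, rfl⟩
    · exact absurd rfl h12
    · simp only [cr]; omega
    · exact h.pu_ne hi hm mi (Or.inl rfl)
    · simp only [cr]; omega
    · exact absurd rfl h12
    · exact h.pu_ne hi hm mi (Or.inr rfl)
    · exact (h.pu_ne hi hm mi (Or.inl rfl)).symm
    · exact (h.pu_ne hi hm mi (Or.inr rfl)).symm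
    · rcases lt_trichotomy j k with jk | rfl | jk
      · exact h.uu_ne hi hm hj hk mi (h.use_ne uj) (h.use_ne uk) jk
      · exact absurd rfl h12
      · exact (h.uu_ne hi hm hk hj mi (h.use_ne uk) (h.use_ne uj) jk).symm
  have key2 : 1 ≤ |cr (o2 - o1) (K.P m - K.P i)| := by
    rw [cr_sub_left]
    exact one_le_abs_int (sub_ne_zero.2 key.symm)
  have b1 := (h.off_bd hi k1).1
  have b2 := (h.off_bd hi k2).1
  have b3 := (h.off_bd hm k3).1
  have e3 := cr_le (b2.sub b1) (b3.sub b1)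
  have e : dz (K.B • K.P i + o1) (K.B • K.P i + o2) (K.B • K.P m + o3) =
      K.B * cr (o2 - o1) (K.P m - K.P i) + cr (o2 - o1) (o3 - o1) := by
    rw [dz_expand]
    simp only [dz, cr, Prod.fst_sub, Prod.snd_sub]
    ring
  obtain ⟨c1, c2, -, -⟩ := h.B_facts
  have h1 : 1 ≤ K.C * K.M := h.hC1.trans h.R_ge
  rw [e]
  have t1 := abs_sub (K.B * cr (o2 - o1) (K.P m - K.P i) + cr (o2 - o1) (o3 - o1))
    (cr (o2 - o1) (o3 - o1))
  rw [add_sub_cancel_right, abs_mul, abs_of_pos c1] at t1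
  have t2 := mul_le_mul_of_nonneg_left key2 c1.le
  nlinarith

theorem Good.puu (h : K.Good) {i j k : ℕ} (hi : i < K.N) (hj : j < K.N) (hk : k < K.N)
    (ji : j ≠ i) (ki : k ≠ i) (jk : j ≠ k) {e : ℤ} (he : e = 1 ∨ e = -1) :
    K.Θ ≤ |dz (0, e) (K.uo i j) (K.uo i k)| := by
  have h1 := one_le_abs_int (h.w_w_ne hi hj hk ji ki jk)
  have h2 := abs_le.1 (h.w_bd hi hj).1
  have h3 := abs_le.1 (h.w_bd hi hk).1
  set a := K.c0 * K.g j with ha
  set b := K.c0 * K.g k with hb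
  have a0 : K.c0 ≤ a := h.c_ge j
  have b0 : K.c0 ≤ b := h.c_ge k
  have e1 : dz (0, e) (K.uo i j) (K.uo i k) =
      a * b * cr (K.w i j) (K.w i k) + e * (b * (K.w i k).1 - a * (K.w i j).1) := by
    simp only [dz, cr, uo, Prod.smul_fst, Prod.smul_snd, smul_eq_mul, ha, hb]
    ring
  have c0 := h.c0_pos
  have e2 : |e * (b * (K.w i k).1 - a * (K.w i j).1)| ≤ (a + b) * K.M := by
    have : |e| = 1 := by rcases he with rfl | rfl <;> simp
    rw [abs_mul, this, one_mul, abs_le]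
    constructor <;> nlinarith
  have t1 := abs_sub (a * b * cr (K.w i j) (K.w i k) + e * (b * (K.w i k).1 - a * (K.w i j).1))
    (e * (b * (K.w i k).1 - a * (K.w i j).1))
  have ab : 0 < a * b := mul_pos (by linarith) (by linarith)
  rw [add_sub_cancel_right, abs_mul (a * b), abs_of_pos ab] at t1
  have t2 := mul_le_mul_of_nonneg_left h1 ab.le
  rw [e1]
  have t3 : 4 * (a * K.M) ≤ a * b := by nlinarith [h.hc0]
  have t4 : 4 * (b * K.M) ≤ a * b := by nlinarith [h.hc0]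
  have t5 : K.c0 ^ 2 ≤ a * b := by nlinarith
  have := h.hΘ2
  nlinarith

theorem Good.uuu0 (h : K.Good) {i j k l : ℕ} (hi : i < K.N) (hj : j < K.N) (hk : k < K.N)
    (hl : l < K.N) (ki : k ≠ i) (li : l ≠ i) (jk : j < k) (jl : j < l) (kl : k ≠ l) :
    K.Θ ≤ |dz (K.uo i j) (K.uo i k) (K.uo i l)| := by
  have e1 : dz (K.uo i j) (K.uo i k) (K.uo i l) = K.c0 ^ 2 *
      (K.g k * K.g l * cr (K.w i k) (K.w i l) + (K.g j * K.g k * cr (K.w i j) (K.w i k) -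
        K.g j * K.g l * cr (K.w i j) (K.w i l))) := by
    simp only [dz, cr, uo, Prod.smul_fst, Prod.smul_snd, smul_eq_mul]
    ring
  have h1 := one_le_abs_int (h.w_w_ne hi hk hl ki li kl)
  have h2 := abs_le.1 (cr_le (h.w_bd hi hj) (h.w_bd hi hk))
  have h3 := abs_le.1 (cr_le (h.w_bd hi hj) (h.w_bd hi hl))
  have g1 := h.gpos j
  have g2 := h.gpos k
  have g3 := h.gpos l
  have s1 := h.gsep j k jk hk
  have s2 := h.gsep j l jl hl
  have jk0 : 0 < K.g j * K.g k := by positivity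
  have jl0 : 0 < K.g j * K.g l := by positivity
  have kl0 : 0 < K.g k * K.g l := by positivity
  have hL := h.hL
  have t1 : 4 * K.M ^ 2 * (K.g j * K.g k) < K.g k * K.g l := by
    have := mul_lt_mul_of_pos_right hL jk0
    have := mul_le_mul_of_nonneg_left s2 (show 0 ≤ K.g k by linarith)
    nlinarith
  have t2 : 4 * K.M ^ 2 * (K.g j * K.g l) < K.g k * K.g l := by
    have := mul_lt_mul_of_pos_right hL jl0
    have := mul_le_mul_of_nonneg_left s1 (show 0 ≤ K.g l by linarith)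
    nlinarith
  have u1 := mul_le_mul_of_nonneg_left h2.1 jk0.le
  have u2 := mul_le_mul_of_nonneg_left h2.2 jk0.le
  have u3 := mul_le_mul_of_nonneg_left h3.1 jl0.le
  have u4 := mul_le_mul_of_nonneg_left h3.2 jl0.le
  have key : K.g k * K.g l * cr (K.w i k) (K.w i l) + (K.g j * K.g k * cr (K.w i j) (K.w i k) -
        K.g j * K.g l * cr (K.w i j) (K.w i l)) ≠ 0 := by
    intro e
    rcases le_abs.1 h1 with h4 | h4
    · have := mul_le_mul_of_nonneg_left h4 kl0.le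
      nlinarith
    · have := mul_le_mul_of_nonneg_left h4 kl0.le
      nlinarith
  rw [e1, abs_mul, abs_of_nonneg (sq_nonneg _)]
  have := mul_le_mul_of_nonneg_left (one_le_abs_int key) (sq_nonneg K.c0)
  linarith [h.hΘ2, h.Θ_pos]

theorem Good.uuu (h : K.Good) {i j k l : ℕ} (hi : i < K.N) (hj : j < K.N) (hk : k < K.N)
    (hl : l < K.N) (ji : j ≠ i) (ki : k ≠ i) (li : l ≠ i) (jk : j ≠ k) (jl : j ≠ l) (kl : k ≠ l) :
    K.Θ ≤ |dz (K.uo i j) (K.uo i k) (K.uo i l)| := by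
  by_cases c1 : j < k ∧ j < l
  · exact h.uuu0 hi hj hk hl ki li c1.1 c1.2 kl
  by_cases c2 : k < j ∧ k < l
  · rw [← dz_rot]
    exact h.uuu0 hi hk hl hj li ji c2.2 c2.1 jl.symm
  · rw [dz_rot]
    exact h.uuu0 hi hl hj hk ji ki (by omega) (by omega) jk

theorem dz_pq (e : ℤ) (o : Z2) : dz (0, e) (0, -e) o = 2 * e * o.1 := by
  simp only [dz]; ring

/-- three points at the same site -/
theorem Good.one (h : K.Good) {i : ℕ} {o1 o2 o3 : Z2} (hi : i < K.N) (k1 : K.Off i o1)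
    (k2 : K.Off i o2) (k3 : K.Off i o3) (h12 : o1 ≠ o2) (h13 : o1 ≠ o3) (h23 : o2 ≠ o3) :
    K.Θ ≤ |dz o1 o2 o3| ∨ (K.tgt i ∧ dz o1 o2 o3 ≠ 0 ∧ (o1 = (0, 1) ∨ o2 = (0, 1) ∨ o3 = (0, 1)) ∧
      (o1 = (0, -1) ∨ o2 = (0, -1) ∨ o3 = (0, -1))) := by
  have ht : K.tgt i := by
    by_contra ht
    rcases k1 with ⟨-, rfl⟩ | ⟨a, -⟩
    · rcases k2 with ⟨-, rfl⟩ | ⟨a, -⟩
      · exact h12 rfl
      · exact ht a
    · exact ht a
  replace k1 := (k1.resolve_left fun a => a.1 ht).2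
  replace k2 := (k2.resolve_left fun a => a.1 ht).2
  replace k3 := (k3.resolve_left fun a => a.1 ht).2
  have ne : ∀ {j k : ℕ}, K.uo i j ≠ K.uo i k → j ≠ k := fun hne e => hne (by rw [e])
  rcases k1 with rfl | rfl | ⟨j, hj, uj, rfl⟩ <;> rcases k2 with rfl | rfl | ⟨k, hk, uk, rfl⟩ <;>
    rcases k3 with rfl | rfl | ⟨l, hl, ul, rfl⟩ <;>
    first
    | exact absurd rfl h12
    | exact absurd rfl h13
    | exact absurd rfl h23
    | skip
  · have := h.uo_neg ul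
    exact Or.inr ⟨ht, by simp only [dz]; omega, by simp, by simp⟩
  · have := h.uo_neg uk
    exact Or.inr ⟨ht, by simp only [dz]; omega, by simp, by simp⟩
  · exact Or.inl (h.puu hi hk hl (h.use_ne uk) (h.use_ne ul) (ne h23) (Or.inl rfl))
  · have := h.uo_neg ul
    exact Or.inr ⟨ht, by simp only [dz]; omega, by simp, by simp⟩
  · have := h.uo_neg uk
    exact Or.inr ⟨ht, by simp only [dz]; omega, by simp, by simp⟩
  · exact Or.inl (h.puu hi hk hl (h.use_ne uk) (h.use_ne ul) (ne h23) (Or.inr rfl))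
  · have := h.uo_neg uj
    exact Or.inr ⟨ht, by simp only [dz]; intro e; linarith, by simp, by simp⟩
  · left
    rw [← dz_rot]
    exact h.puu hi hl hj (h.use_ne ul) (h.use_ne uj) (ne h13).symm (Or.inl rfl)
  · have := h.uo_neg uj
    exact Or.inr ⟨ht, by simp only [dz]; intro e; linarith, by simp, by simp⟩
  · left
    rw [← dz_rot]
    exact h.puu hi hl hj (h.use_ne ul) (h.use_ne uj) (ne h13).symm (Or.inr rfl)
  · left
    rw [dz_rot]
    exact h.puu hi hj hk (h.use_ne uj) (h.use_ne uk) (ne h12) (Or.inl rfl)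
  · left
    rw [dz_rot]
    exact h.puu hi hj hk (h.use_ne uj) (h.use_ne uk) (ne h12) (Or.inr rfl)
  · exact Or.inl (h.uuu hi hj hk hl (h.use_ne uj) (h.use_ne uk) (h.use_ne ul) (ne h12) (ne h13)
      (ne h23))

theorem dz_add (v a b c : Z2) : dz (v + a) (v + b) (v + c) = dz a b c := by
  simp only [dz, Prod.fst_add, Prod.snd_add]; ring

/-- the two points of the short segment at a target -/
def pp (K : Cfg) (i : ℕ) : Z2 := K.B • K.P i + (0, 1)
def qq (K : Cfg) (i : ℕ) : Z2 := K.B • K.P i + (0, -1)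

theorem Good.big (h : K.Good) {x y z : Z2} (hx : x ∈ K.Sz) (hy : y ∈ K.Sz) (hz : z ∈ K.Sz)
    (xy : x ≠ y) (xz : x ≠ z) (yz : y ≠ z) :
    K.Θ ≤ |dz x y z| ∨ (dz x y z ≠ 0 ∧ ∃ i, K.tgt i ∧ (x = K.pp i ∨ y = K.pp i ∨ z = K.pp i) ∧
      (x = K.qq i ∨ y = K.qq i ∨ z = K.qq i)) := by
  obtain ⟨i, hi, o1, k1, rfl⟩ := hx
  obtain ⟨j, hj, o2, k2, rfl⟩ := hy
  obtain ⟨k, hk, o3, k3, rfl⟩ := hz
  have ne : ∀ {v a b : Z2}, v + a ≠ v + b → a ≠ b := fun hne e => hne (by rw [e])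
  by_cases ij : i = j
  · subst ij
    by_cases ik : i = k
    · subst ik
      rw [dz_add]
      rcases h.one hi k1 k2 k3 (ne xy) (ne xz) (ne yz) with a | ⟨a, b, c, d⟩
      · exact Or.inl a
      · refine Or.inr ⟨b, i, a, ?_, ?_⟩
        · simpa only [pp, add_right_inj] using c
        · simpa only [qq, add_right_inj] using d
    · exact Or.inl (h.two hi hk (Ne.symm ik) k1 k2 k3 (ne xy))
  left
  by_cases ik : i = k
  · subst ik
    rw [dz_rot]
    exact h.two hi hj (Ne.symm ij) k3 k1 k2 (ne xz).symm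
  by_cases jk : j = k
  · subst jk
    rw [← dz_rot]
    exact h.two hj hi ij k2 k3 k1 (ne yz)
  · exact h.B_facts.2.2.1.trans (h.three hi hj hk ij ik jk (h.off_bd hi k1).1 (h.off_bd hj k2).1
      (h.off_bd hk k3).1).1

theorem Good.dz_ne (h : K.Good) {x y z : Z2} (hx : x ∈ K.Sz) (hy : y ∈ K.Sz) (hz : z ∈ K.Sz)
    (xy : x ≠ y) (xz : x ≠ z) (yz : y ≠ z) : dz x y z ≠ 0 := by
  rcases h.big hx hy hz xy xz yz with a | a
  · intro e
    rw [e, abs_zero] at a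
    linarith [h.Θ_pos]
  · exact a.1

end Cfg

end Pool.Agent.H579Z.Area
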