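import Pool.Agent.H579Z.Area.Clus1

set_option autoImplicit false

/-! From choosing non-crossing segments to max-min area triangulations. -/

namespace Pool.Agent.H579Z.Area

def emb (a : Z2) : Pt := ((a.1 : ℝ), (a.2 : ℝ))

theorem emb_inj {a b : Z2} (h : emb a = emb b) : a = b := by
  simp only [emb, Prod.mk.injEq, Int.cast_inj] at h
  exact Prod.ext h.1 h.2

theorem det_emb (a b c : Z2) : det (emb a) (emb b) (emb c) = (dz a b c : ℝ) := by
  simp only [det, emb, dz]; push_cast; ring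

def CrossZ (a b c d : Z2) : Prop := dz a b c * dz a b d < 0 ∧ dz c d a * dz c d b < 0

theorem cross_emb {a b c d : Z2} (h : CrossZ a b c d) :
    ∃ x, x ∈ openSegment ℝ (emb a) (emb b) ∧ x ∈ openSegment ℝ (emb c) (emb d) := by
  apply cross_of_det
  · rw [det_emb, det_emb]; exact_mod_cast h.1
  · rw [det_emb, det_emb]; exact_mod_cast h.2

theorem dz_of_cross {a b c d : Z2} {x : Pt} (h1 : x ∈ openSegment ℝ (emb a) (emb b))
    (h2 : x ∈ openSegment ℝ (emb c) (emb d)) (h : dz a b c ≠ 0 ∨ dz a b d ≠ 0) :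
    dz a b c * dz a b d < 0 := by
  have := det_of_cross h1 h2 (by rw [det_emb, det_emb]; exact_mod_cast h)
  rw [det_emb, det_emb] at this
  exact_mod_cast this

namespace Cfg

variable {K : Cfg}

/-- the point set -/
def SS (K : Cfg) : Set Pt := emb '' K.Sz

/-- the shooter -/
def sh (K : Cfg) (t y : ℕ) : Z2 := K.B • K.P t + K.uo t y

def en (K : Cfg) (y : ℕ) : Z2 := K.B • K.P y + 0

theorem Good.GP (h : K.Good) : GP K.SS := by
  rintro _ ⟨a, ha, rfl⟩ _ ⟨b, hb, rfl⟩ _ ⟨c, hc, rfl⟩ ab ac bc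
  rw [det_emb]
  exact_mod_cast h.dz_ne ha hb hc (fun e => ab (by rw [e])) (fun e => ac (by rw [e]))
    (fun e => bc (by rw [e]))

theorem Good.tgt_lt (h : K.Good) {t : ℕ} (ht : K.tgt t) : t < K.N := by
  obtain ⟨y, hy⟩ := ht
  exact (h.optlt _ _ hy).1

theorem Good.pp_mem (h : K.Good) {t : ℕ} (ht : K.tgt t) : K.pp t ∈ K.Sz :=
  ⟨t, h.tgt_lt ht, _, Or.inr ⟨ht, Or.inl rfl⟩, rfl⟩

theorem Good.qq_mem (h : K.Good) {t : ℕ} (ht : K.tgt t) : K.qq t ∈ K.Sz :=
  ⟨t, h.tgt_lt ht, _, Or.inr ⟨ht, Or.inr (Or.inl rfl)⟩, rfl⟩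

theorem Good.u_mem (h : K.Good) {t k : ℕ} (ht : K.tgt t) (hk : k < K.N) (hu : K.use t k) :
    K.sh t k ∈ K.Sz :=
  ⟨t, h.tgt_lt ht, _, Or.inr ⟨ht, Or.inr (Or.inr ⟨k, hk, hu, rfl⟩)⟩, rfl⟩

theorem Good.sh_mem (h : K.Good) {t y : ℕ} (ho : K.opt t y) : K.sh t y ∈ K.Sz :=
  h.u_mem ⟨y, ho⟩ (h.optlt _ _ ho).2.1 (Or.inr ho)

theorem Good.not_tgt (h : K.Good) {t y : ℕ} (ho : K.opt t y) : ¬ K.tgt y :=
  fun ⟨y', hy'⟩ => (h.optlt _ _ ho).2.2.2 y' hy'

theorem Good.en_mem (h : K.Good) {t y : ℕ} (ho : K.opt t y) : K.en y ∈ K.Sz :=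
  ⟨y, (h.optlt _ _ ho).2.1, _, Or.inl ⟨h.not_tgt ho, rfl⟩, rfl⟩

theorem pp_ne_qq (t : ℕ) : K.pp t ≠ K.qq t := by
  intro e
  have := congrArg Prod.snd e
  simp only [pp, qq, Prod.snd_add] at this
  omega

theorem dz_qp (t : ℕ) (x : Z2) : dz (K.qq t) (K.pp t) x = 2 * (K.B * (K.P t).1 - x.1) := by
  simp only [dz, pp, qq, Prod.fst_add, Prod.snd_add, Prod.smul_fst, Prod.smul_snd, smul_eq_mul]
  ring

theorem Good.site_eq (h : K.Good) {i j : ℕ} {o o' : Z2} (hi : i < K.N) (hj : j < K.N)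
    (k1 : Bd (K.C * K.M) o) (k2 : Bd (K.C * K.M) o') (hlt : (K.P i).1 < (K.P j).1) :
    (K.B • K.P i + o).1 < (K.B • K.P j + o').1 := by
  obtain ⟨b1, b2, -, -⟩ := h.B_facts
  have h1 := abs_le.1 k1.1
  have h2 := abs_le.1 k2.1
  have h3 := mul_le_mul_of_nonneg_left (show (K.P i).1 + 1 ≤ (K.P j).1 by omega) b1.le
  simp only [Prod.fst_add, Prod.smul_fst, smul_eq_mul]
  nlinarith [h.Θ_pos, sq_nonneg (K.C * K.M)]

theorem Good.bd0 (h : K.Good) : Bd (K.C * K.M) 0 := by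
  have h1 : 1 ≤ K.C * K.M := h.hC1.trans h.R_ge
  exact ⟨by simp; linarith, by simp; linarith⟩

theorem Good.sh_cross (h : K.Good) {t y : ℕ} (ho : K.opt t y) :
    CrossZ (K.qq t) (K.pp t) (K.sh t y) (K.en y) := by
  obtain ⟨ht, hy, hlt, -⟩ := h.optlt _ _ ho
  have h1 := h.uo_neg (Or.inr ho : K.use t y)
  have b1 := h.B_facts.1
  have h2 : K.B * (K.P t).1 < K.B * (K.P y).1 := mul_lt_mul_of_pos_left hlt b1
  have hw : K.w t y = K.P t - K.P y := by
    unfold w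
    rw [if_neg (by omega)]
  constructor
  · rw [dz_qp, dz_qp]
    simp only [sh, en, Prod.fst_add, Prod.smul_fst, smul_eq_mul, Prod.fst_zero]
    nlinarith
  · have e1 : dz (K.sh t y) (K.en y) (K.qq t) =
        -((K.B + K.c0 * K.g y) * ((K.P y).1 - (K.P t).1)) := by
      simp only [dz, sh, en, qq, uo, hw, Prod.fst_add, Prod.snd_add, Prod.smul_fst, Prod.smul_snd,
        smul_eq_mul, Prod.fst_zero, Prod.snd_zero, Prod.fst_sub, Prod.snd_sub]
      ring
    have e2 : dz (K.sh t y) (K.en y) (K.pp t) =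
        (K.B + K.c0 * K.g y) * ((K.P y).1 - (K.P t).1) := by
      simp only [dz, sh, en, pp, uo, hw, Prod.fst_add, Prod.snd_add, Prod.smul_fst, Prod.smul_snd,
        smul_eq_mul, Prod.fst_zero, Prod.snd_zero, Prod.fst_sub, Prod.snd_sub]
      ring
    rw [e1, e2]
    have : 0 < (K.B + K.c0 * K.g y) * ((K.P y).1 - (K.P t).1) :=
      mul_pos (by linarith [h.c_ge y, h.c0_pos]) (by linarith)
    nlinarith

/-- a segment crossing the short segment of a target is one of its options -/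
theorem Good.stab (h : K.Good) {t : ℕ} (ht : K.tgt t) {x y : Z2} (hx : x ∈ K.Sz) (hy : y ∈ K.Sz)
    (hl : x.1 < K.B * (K.P t).1) (hr : K.B * (K.P t).1 < y.1)
    (hc : dz x y (K.qq t) * dz x y (K.pp t) < 0) :
    ∃ m, K.opt t m ∧ x = K.sh t m ∧ y = K.en m := by
  have htN := h.tgt_lt ht
  obtain ⟨k, hk, o, k1, rfl⟩ := hx
  obtain ⟨m, hm, o', k2, rfl⟩ := hy
  obtain ⟨a1, a2⟩ := h.off_bd hk k1
  obtain ⟨a3, a4⟩ := h.off_bd hm k2
  obtain ⟨b1, b2, b3, b4⟩ := h.B_facts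
  have hmt : (K.P t).1 < (K.P m).1 := by
    simp only [Prod.fst_add, Prod.smul_fst, smul_eq_mul] at hr
    by_contra hc
    have := mul_le_mul_of_nonneg_left (not_lt.1 hc) b1.le
    linarith
  have mt : m ≠ t := by
    rintro rfl
    exact lt_irrefl _ hmt
  set x := K.B • K.P k + o with hx
  set y := K.B • K.P m + o' with hy
  have e1 : dz x y (K.qq t) = dz x y (K.B • K.P t + 0) - (y.1 - x.1) := by
    simp only [dz, qq, Prod.fst_add, Prod.snd_add, Prod.fst_zero, Prod.snd_zero]; ring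
  have e2 : dz x y (K.pp t) = dz x y (K.B • K.P t + 0) + (y.1 - x.1) := by
    simp only [dz, pp, Prod.fst_add, Prod.snd_add, Prod.fst_zero, Prod.snd_zero]; ring
  have e3 : |dz x y (K.B • K.P t + 0)| < y.1 - x.1 := by
    rw [e1, e2] at hc
    apply abs_lt_of_sq_lt_sq _ (by linarith)
    nlinarith
  have e4 : y.1 - x.1 ≤ K.B * K.M + 2 * (K.C * K.M) := by
    have h1 := abs_le.1 (h.bd m hm k hk).1
    have h2 := abs_le.1 a1.1
    have h3 := abs_le.1 a3.1
    have h4 := mul_le_mul_of_nonneg_left h1.2 b1.le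
    simp only [hx, hy, Prod.fst_add, Prod.smul_fst, smul_eq_mul, Prod.fst_sub] at h4 ⊢
    linarith
  by_cases kt : k = t
  · subst kt
    have ho : o.1 < 0 := by
      simp only [hx, Prod.fst_add, Prod.smul_fst, smul_eq_mul] at hl
      linarith
    rcases k1 with ⟨a, -⟩ | ⟨-, rfl | rfl | ⟨j, hj, uj, rfl⟩⟩
    · exact absurd ht a
    · simp at ho
    · simp at ho
    have e5 : dz x y (K.B • K.P k + 0) = K.B * (K.c0 * K.g j * cr (K.w k j) (K.P m - K.P k)) +
        cr (K.uo k j) o' := by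
      rw [← cr_uo]
      simp only [dz, cr, hx, hy, Prod.fst_add, Prod.snd_add, Prod.fst_zero, Prod.snd_zero,
        Prod.smul_fst, Prod.smul_snd, smul_eq_mul, Prod.fst_sub, Prod.snd_sub]
      ring
    have jm : j = m := by
      by_contra jm
      have h1 := one_le_abs_int (h.w_cr_ne hk hj hm (h.use_ne uj) mt jm)
      have h2 := cr_le a1 a3
      have h3 := abs_sub (K.B * (K.c0 * K.g j * cr (K.w k j) (K.P m - K.P k)) + cr (K.uo k j) o')
        (cr (K.uo k j) o')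
      have h4 := h.c_ge j
      have h5 := h.c0_pos
      rw [add_sub_cancel_right, ← e5, abs_mul, abs_mul, abs_of_pos b1,
        abs_of_pos (show 0 < K.c0 * K.g j by linarith)] at h3
      have h6 := mul_le_mul_of_nonneg_left h1 (show 0 ≤ K.c0 * K.g j by linarith)
      have h7 := mul_le_mul_of_nonneg_left h6 b1.le
      have h8 := mul_le_mul_of_nonneg_left (h.hc0.trans h4) b1.le
      have h9 := mul_le_mul_of_nonneg_left h.hM b1.le
      nlinarith [h.Θ_pos, sq_nonneg (K.C * K.M)]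
    subst jm
    have ho' : K.opt k j := uj.resolve_left (by omega)
    refine ⟨j, ho', rfl, ?_⟩
    rcases k2 with ⟨-, rfl⟩ | ⟨a, -⟩
    · rfl
    · exact absurd a (h.not_tgt ho')
  · have km : k ≠ m := by
      rintro rfl
      have := h.site_eq htN hk h.bd0 a1 hmt
      simp only [Prod.fst_add, Prod.smul_fst, smul_eq_mul, Prod.fst_zero, hx] at this hl
      linarith
    have := (h.three hk hm htN km kt mt a1 a3 h.bd0).1
    linarith

theorem sign_iff {a b c d : ℤ} (h1 : 0 < a * c) (h2 : 0 < b * d) : a * b < 0 ↔ c * d < 0 := by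
  have h3 : 0 < (a * b) * (c * d) := by nlinarith [mul_pos h1 h2]
  constructor
  · intro h
    by_contra h4
    nlinarith [mul_nonpos_of_nonpos_of_nonneg h.le (not_lt.1 h4)]
  · intro h
    by_contra h4
    nlinarith [mul_nonpos_of_nonneg_of_nonpos (not_lt.1 h4) h.le]

theorem Good.cross_iff (h : K.Good) {t y t' y' : ℕ} (ho : K.opt t y) (ho' : K.opt t' y')
    (tt : t ≠ t') : CrossZ (K.sh t y) (K.en y) (K.sh t' y') (K.en y') ↔
      CrossZ (K.P t) (K.P y) (K.P t') (K.P y') := by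
  by_cases yy : y = y'
  · subst yy
    have e : ∀ a b : Z2, dz a b b = 0 := by intro a b; simp only [dz]; ring
    simp [CrossZ, e]
  obtain ⟨ht, hy, l1, -⟩ := h.optlt _ _ ho
  obtain ⟨ht', hy', l2, -⟩ := h.optlt _ _ ho'
  have ty : t ≠ y := by rintro rfl; exact lt_irrefl _ l1
  have ty2 : t' ≠ y' := by rintro rfl; exact lt_irrefl _ l2
  have ty3 : t ≠ y' := by rintro rfl; exact h.not_tgt ho' ⟨y, ho⟩
  have ty4 : t' ≠ y := by rintro rfl; exact h.not_tgt ho ⟨y', ho'⟩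
  have u1 := h.uo_bd ht hy
  have u2 := h.uo_bd ht' hy'
  have z := h.bd0
  exact and_congr
    (sign_iff (h.three ht hy ht' ty tt ty4.symm u1 z u2).2 (h.three ht hy hy' ty ty3 yy u1 z z).2)
    (sign_iff (h.three ht' hy' ht ty2 tt.symm ty3.symm u2 z u1).2
      (h.three ht' hy' hy ty2 ty4 (Ne.symm yy) u2 z z).2)

theorem Good.sh_ne_en (h : K.Good) {t y t' y' : ℕ} (ho : K.opt t y) (ho' : K.opt t' y') :
    K.sh t y ≠ K.en y' := by
  obtain ⟨ht, hy, l1, -⟩ := h.optlt _ _ ho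
  obtain ⟨ht', hy', l2, -⟩ := h.optlt _ _ ho'
  have ty3 : t ≠ y' := by rintro rfl; exact h.not_tgt ho' ⟨y, ho⟩
  intro e
  have e1 := congrArg Prod.fst e
  rcases lt_or_gt_of_ne (h.xne t ht y' hy' ty3) with a | a
  · exact (h.site_eq ht hy' (h.uo_bd ht hy) h.bd0 a).ne e1
  · exact (h.site_eq hy' ht h.bd0 (h.uo_bd ht hy) a).ne e1.symm

theorem Good.sh_ne_sh (h : K.Good) {t y t' y' : ℕ} (ho : K.opt t y) (ho' : K.opt t' y')
    (tt : t ≠ t') : K.sh t y ≠ K.sh t' y' := by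
  obtain ⟨ht, hy, l1, -⟩ := h.optlt _ _ ho
  obtain ⟨ht', hy', l2, -⟩ := h.optlt _ _ ho'
  intro e
  have e1 := congrArg Prod.fst e
  rcases lt_or_gt_of_ne (h.xne t ht t' ht' tt) with a | a
  · exact (h.site_eq ht ht' (h.uo_bd ht hy) (h.uo_bd ht' hy') a).ne e1
  · exact (h.site_eq ht' ht (h.uo_bd ht' hy') (h.uo_bd ht hy) a).ne e1.symm

theorem Good.finite (h : K.Good) : K.SS.Finite := by
  apply Set.Finite.image
  have : K.Sz ⊆ ⋃ i ∈ Set.Iio K.N, (fun o => K.B • K.P i + o) ''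
      (Set.Icc (-(K.C * K.M)) (K.C * K.M) ×ˢ Set.Icc (-(K.C * K.M)) (K.C * K.M)) := by
    rintro x ⟨i, hi, o, ho, rfl⟩
    simp only [Set.mem_iUnion]
    have := (h.off_bd hi ho).1
    exact ⟨i, hi, o, ⟨abs_le.1 this.1, abs_le.1 this.2⟩, rfl⟩
  exact Set.Finite.subset ((Set.finite_Iio _).biUnion fun i _ =>
    ((Set.finite_Icc _ _).prod (Set.finite_Icc _ _)).image _) this

/-- the short segment of a target is not an edge of a good triangulation -/
theorem Good.not_short (h : K.Good) {T : Set (Sym2 Pt)} (hT : IsTriangulation K.SS T)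
    (hA : ∀ a b c, IsTriangle K.SS T a b c → (K.Θ : ℝ) / 2 ≤ area a b c) {t : ℕ} (ht : K.tgt t) :
    s(emb (K.qq t), emb (K.pp t)) ∉ T := by
  intro hq
  have htN := h.tgt_lt ht
  obtain ⟨y, hy⟩ := id ht
  obtain ⟨b1, b2, b3, b4⟩ := h.B_facts
  obtain ⟨z, hz, htri⟩ := exists_face h.finite h.GP hT hq ⟨_, h.sh_mem hy, rfl⟩ (by
    rw [det_emb, dz_qp]
    have := h.uo_neg (Or.inr hy : K.use t y)
    simp only [sh, Prod.fst_add, Prod.smul_fst, smul_eq_mul]
    exact_mod_cast (by linarith : (0 : ℤ) < 2 * (K.B * (K.P t).1 - (K.B * (K.P t).1 + (K.uo t y).1))))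
  obtain ⟨z, ⟨k, hk, o, ko, rfl⟩, rfl⟩ := (hT.prop.1 _ _ htri.2.1).2.1
  have ha := hA _ _ _ htri
  have hd : (K.Θ : ℝ) ≤ |det (emb (K.qq t)) (emb (K.pp t)) (emb (K.B • K.P k + o))| := by
    simp only [area] at ha
    simp only [det]
    linarith
  rw [det_emb] at hd hz
  have hd' : K.Θ ≤ |dz (K.qq t) (K.pp t) (K.B • K.P k + o)| := by exact_mod_cast hd
  have hz' : 0 < dz (K.qq t) (K.pp t) (K.B • K.P k + o) := by exact_mod_cast hz
  rw [abs_of_pos hz'] at hd'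
  rw [dz_qp] at hd' hz'
  obtain ⟨a1, a2⟩ := h.off_bd hk ko
  have a3 := abs_le.1 a1.1
  by_cases kt : k = t
  · subst kt
    simp only [Prod.fst_add, Prod.smul_fst, smul_eq_mul] at hd'
    have := h.hΘ1
    linarith
  have hlt : (K.P k).1 < (K.P t).1 := by
    rcases lt_or_gt_of_ne (h.xne k hk t htN kt) with a | a
    · exact a
    · have := h.site_eq htN hk h.bd0 a1 a
      simp only [Prod.fst_add, Prod.smul_fst, smul_eq_mul, Prod.fst_zero] at this hz'
      linarith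
  have hu : K.use t k := Or.inl hlt
  have hw : K.w t k = K.P k - K.P t := by
    unfold w
    rw [if_pos hlt]
  have un := h.uo_neg hu
  have c1 := h.c_ge k
  have c2 := h.c0_pos
  have c3 := h.hC k hk
  have c4 := h.R_ge
  have c5 : 1 ≤ K.C * K.M := h.hC1.trans h.R_ge
  have c6 := abs_le.1 (cr_le (h.uo_bd htN hk) a1)
  have c7 : K.B - K.C ≤ (K.B - K.c0 * K.g k) * ((K.P t).1 - (K.P k).1) := by
    have : 0 ≤ K.B - K.c0 * K.g k := by nlinarith [h.Θ_pos]
    have := mul_le_mul_of_nonneg_left (show 1 ≤ (K.P t).1 - (K.P k).1 by omega) this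
    linarith
  set z := K.B • K.P k + o with hzdef
  have e1 : dz (K.qq t) (K.sh t k) z = cr (K.uo t k) o +
      (K.B - K.c0 * K.g k) * ((K.P t).1 - (K.P k).1) - o.1 := by
    simp only [dz, cr, qq, sh, uo, hw, hzdef, Prod.fst_add, Prod.snd_add, Prod.smul_fst,
      Prod.smul_snd, smul_eq_mul, Prod.fst_sub, Prod.snd_sub]
    ring
  have e2 : dz (K.pp t) z (K.sh t k) = -cr (K.uo t k) o +
      (K.B - K.c0 * K.g k) * ((K.P t).1 - (K.P k).1) - o.1 := by
    simp only [dz, cr, pp, sh, uo, hw, hzdef, Prod.fst_add, Prod.snd_add, Prod.smul_fst,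
      Prod.smul_snd, smul_eq_mul, Prod.fst_sub, Prod.snd_sub]
    ring
  have f1 : 0 < dz (K.qq t) (K.sh t k) z := by rw [e1]; nlinarith [h.Θ_pos]
  have f2 : 0 < dz (K.pp t) z (K.sh t k) := by rw [e2]; nlinarith [h.Θ_pos]
  have f3 : 0 < dz (K.qq t) (K.pp t) (K.sh t k) := by
    rw [dz_qp]
    simp only [sh, Prod.fst_add, Prod.smul_fst, smul_eq_mul]
    linarith
  have f4 : dz (K.qq t) (K.pp t) z = dz (K.qq t) (K.sh t k) z + dz (K.qq t) (K.pp t) (K.sh t k) +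
      dz (K.pp t) z (K.sh t k) := by simp only [dz]; ring
  have g1 : (0 : ℝ) < dz (K.qq t) (K.sh t k) z := by exact_mod_cast f1
  have g2 : (0 : ℝ) < dz (K.pp t) z (K.sh t k) := by exact_mod_cast f2
  have g3 : (0 : ℝ) < dz (K.qq t) (K.pp t) (K.sh t k) := by exact_mod_cast f3
  have g4 : (dz (K.qq t) (K.pp t) z : ℝ) = dz (K.qq t) (K.sh t k) z +
      dz (K.qq t) (K.pp t) (K.sh t k) + dz (K.pp t) z (K.sh t k) := by exact_mod_cast f4
  have hm : emb (K.sh t k) ∈ convexHull ℝ {emb (K.qq t), emb (K.pp t), emb z} := by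
    refine mem_hull (by rw [det_emb]; exact hz.ne') ?_ ?_ ?_
    · simp only [al, det_emb]; positivity
    · simp only [be, det_emb]; positivity
    · simp only [al, be, det_emb]
      rw [← add_div, div_le_one hz]
      linarith
  have zz : ∀ a b : Z2, dz a a b = 0 ∧ dz a b a = 0 ∧ dz b a a = 0 := by
    intro a b
    simp only [dz]
    refine ⟨by ring, by ring, by ring⟩
  rcases htri.2.2.2 _ ⟨_, h.u_mem ht hk hu, rfl⟩ hm with e | e | e <;> rw [emb_inj e] at f1 f2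
  · rw [(zz _ _).1] at f1; exact lt_irrefl _ f1
  · rw [(zz _ _).2.1] at f2; exact lt_irrefl _ f2
  · rw [(zz _ _).2.2] at f1; exact lt_irrefl _ f1

theorem Good.exists_opt (h : K.Good) {T : Set (Sym2 Pt)} (hT : IsTriangulation K.SS T)
    (hA : ∀ a b c, IsTriangle K.SS T a b c → (K.Θ : ℝ) / 2 ≤ area a b c) {t : ℕ} (ht : K.tgt t) :
    ∃ y, K.opt t y ∧ s(emb (K.sh t y), emb (K.en y)) ∈ T := by
  have hn := h.not_short hT hA ht
  have qS : emb (K.qq t) ∈ K.SS := ⟨_, h.qq_mem ht, rfl⟩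
  have pS : emb (K.pp t) ∈ K.SS := ⟨_, h.pp_mem ht, rfl⟩
  have qp : emb (K.qq t) ≠ emb (K.pp t) := fun e => pp_ne_qq t (emb_inj e).symm
  by_contra hcon
  refine hn (mem_of_no_cross hT qS pS qp (h.GP.not_mem_open qS pS qp) ?_)
  intro c d hcd hne x hx hx'
  obtain ⟨⟨c, hc, rfl⟩, ⟨d, hd, rfl⟩, cd, -⟩ := hT.prop.1 c d hcd
  have cd' : c ≠ d := fun e => cd (by rw [e])
  have on : ∀ y ∈ K.Sz, dz (K.qq t) (K.pp t) y = 0 → y = K.qq t ∨ y = K.pp t := by
    intro y hy e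
    by_contra h'
    rw [not_or] at h'
    exact h.dz_ne (h.qq_mem ht) (h.pp_mem ht) hy (pp_ne_qq t).symm (Ne.symm h'.1) (Ne.symm h'.2) e
  have h1 : dz (K.qq t) (K.pp t) c * dz (K.qq t) (K.pp t) d < 0 := by
    refine dz_of_cross hx hx' ?_
    by_contra h'
    rw [not_or, not_not, not_not] at h'
    rcases on c hc h'.1 with rfl | rfl <;> rcases on d hd h'.2 with rfl | rfl
    · exact cd rfl
    · exact hne rfl
    · exact hne Sym2.eq_swap
    · exact cd rfl
  have h2 : dz c d (K.qq t) * dz c d (K.pp t) < 0 := by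
    refine dz_of_cross hx' hx (Or.inl (h.dz_ne hc hd (h.qq_mem ht) cd' ?_ ?_))
    · rintro rfl
      have : dz (K.qq t) (K.pp t) (K.qq t) = 0 := by simp only [dz]; ring
      rw [this, zero_mul] at h1
      exact lt_irrefl _ h1
    · rintro rfl
      have : dz (K.qq t) (K.pp t) (K.qq t) = 0 := by simp only [dz]; ring
      rw [this, mul_zero] at h1
      exact lt_irrefl _ h1
  rw [dz_qp, dz_qp] at h1
  rcases lt_or_ge c.1 (K.B * (K.P t).1) with a | a
  · have b : K.B * (K.P t).1 < d.1 := by nlinarith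
    obtain ⟨m, hm, rfl, rfl⟩ := h.stab ht hc hd a b h2
    exact hcon ⟨m, hm, hcd⟩
  · have b : d.1 < K.B * (K.P t).1 := by
      by_contra b
      nlinarith [mul_nonneg (sub_nonneg.2 a) (sub_nonneg.2 (not_lt.1 b))]
    have a' : K.B * (K.P t).1 < c.1 := by nlinarith
    obtain ⟨m, hm, rfl, rfl⟩ := h.stab ht hd hc b a' (by
      rw [dz_swap c d, dz_swap c d]; linarith)
    exact hcon ⟨m, hm, Sym2.eq_swap ▸ hcd⟩

/-- choosing pairwise non-crossing options -/
def Choice (K : Cfg) : Prop :=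
  ∃ f : ℕ → ℕ, (∀ t, K.tgt t → K.opt t (f t)) ∧
    ∀ t t', K.tgt t → K.tgt t' → t ≠ t' → ¬ CrossZ (K.P t) (K.P (f t)) (K.P t') (K.P (f t'))

theorem Good.main (h : K.Good) : K.Choice ↔ ∃ T, IsTriangulation K.SS T ∧
    ∀ a b c, IsTriangle K.SS T a b c → (K.Θ : ℝ) / 2 ≤ area a b c := by
  constructor
  · rintro ⟨f, hf, hnc⟩
    let T0 : Set (Sym2 Pt) := {e | ∃ t, K.tgt t ∧ e = s(emb (K.sh t (f t)), emb (K.en (f t)))}
    have seg : ∀ a b c d : Pt, s(a, b) = s(c, d) → openSegment ℝ a b = openSegment ℝ c d := by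
      intro a b c d e
      rcases Sym2.eq_iff.1 e with ⟨rfl, rfl⟩ | ⟨rfl, rfl⟩
      · rfl
      · exact openSegment_symm _ _ _
    have h0 : NonCrossing K.SS T0 := by
      constructor
      · rintro a b ⟨t, ht, e⟩
        have s1 : emb (K.sh t (f t)) ∈ K.SS := ⟨_, h.sh_mem (hf t ht), rfl⟩
        have s2 : emb (K.en (f t)) ∈ K.SS := ⟨_, h.en_mem (hf t ht), rfl⟩
        have s3 : emb (K.sh t (f t)) ≠ emb (K.en (f t)) :=
          fun e => h.sh_ne_en (hf t ht) (hf t ht) (emb_inj e)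
        rcases Sym2.eq_iff.1 e with ⟨rfl, rfl⟩ | ⟨rfl, rfl⟩
        · exact ⟨s1, s2, s3, h.GP.not_mem_open s1 s2 s3⟩
        · exact ⟨s2, s1, s3.symm, h.GP.not_mem_open s2 s1 s3.symm⟩
      · rintro a b c d ⟨t, ht, e⟩ ⟨t', ht', e'⟩ hne
        rw [seg _ _ _ _ e, seg _ _ _ _ e', Set.disjoint_left]
        intro x hx hx'
        have tt : t ≠ t' := by
          rintro rfl
          exact hne (e.trans e'.symm)
        have o1 := hf t ht
        have o2 := hf t' ht'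
        refine hnc t t' ht ht' tt ((h.cross_iff o1 o2 tt).1 ⟨?_, ?_⟩)
        · exact dz_of_cross hx hx' (Or.inl (h.dz_ne (h.sh_mem o1) (h.en_mem o1) (h.sh_mem o2)
            (h.sh_ne_en o1 o1) (h.sh_ne_sh o1 o2 tt) (h.sh_ne_en o2 o1).symm))
        · exact dz_of_cross hx' hx (Or.inl (h.dz_ne (h.sh_mem o2) (h.en_mem o2) (h.sh_mem o1)
            (h.sh_ne_en o2 o2) (h.sh_ne_sh o2 o1 tt.symm) (h.sh_ne_en o1 o2).symm))
    have hfin : {T | NonCrossing K.SS T}.Finite := by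
      have h1 : ((fun p : Pt × Pt => s(p.1, p.2)) '' (K.SS ×ˢ K.SS)).Finite :=
        (h.finite.prod h.finite).image _
      refine h1.powerset.subset ?_
      intro T hT e he
      induction e using Sym2.ind with
      | h a b => exact ⟨(a, b), ⟨(hT.1 a b he).1, (hT.1 a b he).2.1⟩, rfl⟩
    obtain ⟨T, hT0, hT⟩ := hfin.exists_le_maximal h0
    refine ⟨T, hT, ?_⟩
    intro a b c ⟨e1, e2, e3, _⟩
    have hN : NonCrossing K.SS T := hT.prop
    obtain ⟨⟨a, ha, rfl⟩, ⟨b, hb, rfl⟩, ab, -⟩ := hN.1 _ _ e1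
    obtain ⟨-, ⟨c, hc, rfl⟩, bc, -⟩ := hN.1 _ _ e2
    obtain ⟨-, -, ca, -⟩ := hN.1 _ _ e3
    rcases h.big ha hb hc (fun e => ab (by rw [e])) (fun e => ca (by rw [e]))
      (fun e => bc (by rw [e])) with k | ⟨-, t, ht, k1, k2⟩
    · have k' : (K.Θ : ℝ) ≤ |det (emb a) (emb b) (emb c)| := by
        rw [det_emb]; exact_mod_cast k
      simp only [area]
      simp only [det] at k'
      linarith
    · exfalso
      have hq : s(emb (K.qq t), emb (K.pp t)) ∈ T := by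
        rcases k1 with rfl | rfl | rfl <;> rcases k2 with k2 | k2 | k2 <;>
          first
          | exact absurd k2 (pp_ne_qq t)
          | (subst k2; first | assumption | (rw [Sym2.eq_swap]; assumption))
      obtain ⟨x, hx, hx'⟩ := cross_emb (h.sh_cross (hf t ht))
      have e := eq_of_cross hN hq (hT0 ⟨t, ht, rfl⟩) hx hx'
      have h1 := (h.sh_cross (hf t ht)).1
      have zz : ∀ a b : Z2, dz a b a = 0 := by intro a b; simp only [dz]; ring
      rcases Sym2.eq_iff.1 e with ⟨e1, -⟩ | ⟨e1, -⟩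
      · rw [← emb_inj e1, zz, zero_mul] at h1
        exact lt_irrefl _ h1
      · rw [← emb_inj e1, zz, mul_zero] at h1
        exact lt_irrefl _ h1
  · rintro ⟨T, hT, hA⟩
    have : ∀ t, ∃ y, K.tgt t → K.opt t y ∧ s(emb (K.sh t y), emb (K.en y)) ∈ T := by
      intro t
      by_cases ht : K.tgt t
      · obtain ⟨y, hy⟩ := h.exists_opt hT hA ht
        exact ⟨y, fun _ => hy⟩
      · exact ⟨0, fun a => absurd a ht⟩
    choose f hf using this
    refine ⟨f, fun t ht => (hf t ht).1, fun t t' ht ht' tt hc => ?_⟩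
    obtain ⟨o1, e1⟩ := hf t ht
    obtain ⟨o2, e2⟩ := hf t' ht'
    obtain ⟨x, hx, hx'⟩ := cross_emb ((h.cross_iff o1 o2 tt).2 hc)
    rcases Sym2.eq_iff.1 (eq_of_cross hT.prop e1 e2 hx hx') with ⟨e, -⟩ | ⟨e, -⟩
    · exact h.sh_ne_sh o1 o2 tt (emb_inj e)
    · exact h.sh_ne_en o1 o2 (emb_inj e)

end Cfg

end Pool.Agent.H579Z.Area
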