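import Pool.Agent.NPC.Defs

set_option autoImplicit false

/-! Triangulations of planar point sets and the max-min area decision problem
(problem MP_f9630a_lc). -/

namespace Pool.Agent.H579Z.Area

/-- Points of the plane. -/
abbrev Pt : Type := ℝ × ℝ

/-- The area of the triangle with vertices `a`, `b`, `c`. -/
noncomputable def area (a b c : Pt) : ℝ :=
  |(b.1 - a.1) * (c.2 - a.2) - (b.2 - a.2) * (c.1 - a.1)| / 2

/-- `T` is a family of segments (unordered pairs of endpoints) with different endpoints in `S`,
whose relative interiors contain no point of `S` and are pairwise disjoint. -/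
def NonCrossing (S : Set Pt) (T : Set (Sym2 Pt)) : Prop :=
  (∀ a b, s(a, b) ∈ T → a ∈ S ∧ b ∈ S ∧ a ≠ b ∧ ∀ x ∈ S, x ∉ openSegment ℝ a b) ∧
  (∀ a b c d, s(a, b) ∈ T → s(c, d) ∈ T → s(a, b) ≠ s(c, d) →
    Disjoint (openSegment ℝ a b) (openSegment ℝ c d))

/-- A triangulation of `S`: an inclusion-maximal non-crossing family of segments. -/
def IsTriangulation (S : Set Pt) (T : Set (Sym2 Pt)) : Prop := Maximal (NonCrossing S) T

/-- `a b c` is a triangle of the subdivision given by `T`: its three sides belong to `T` and the
closed triangle contains no point of `S` other than its vertices. -/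
def IsTriangle (S : Set Pt) (T : Set (Sym2 Pt)) (a b c : Pt) : Prop :=
  s(a, b) ∈ T ∧ s(b, c) ∈ T ∧ s(c, a) ∈ T ∧
    ∀ x ∈ S, x ∈ convexHull ℝ {a, b, c} → x = a ∨ x = b ∨ x = c

/-- The set of points of the plane given by a list of points with rational coordinates. -/
def pts (l : List (ℚ × ℚ)) : Set Pt := {x | ∃ r ∈ l, x = ((r.1 : ℝ), (r.2 : ℝ))}

/-- The max-min area decision problem: some triangulation of the given point set has all its
triangles of area at least the given rational number. -/
def MaxMinArea (I : List (ℚ × ℚ) × ℚ) : Prop :=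
  ∃ T, IsTriangulation (pts I.1) T ∧
    ∀ a b c, IsTriangle (pts I.1) T a b c → (I.2 : ℝ) ≤ area a b c

end Pool.Agent.H579Z.Area
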