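import Pool.Agent.H579Z.Area.Geo

set_option autoImplicit false

/-! The triangle next to an edge of a triangulation. -/

namespace Pool.Agent.H579Z.Area

theorem eq_of_on {S : Set Pt} {T : Set (Sym2 Pt)} (hT : NonCrossing S T) {a b c d : Pt}
    (h1 : s(a, b) ∈ T) (h2 : s(c, d) ∈ T) {s : ℝ} (s0 : 0 ≤ s) (s1 : s < 1)
    (hx : lin a b s ∈ openSegment ℝ c d) : s(a, b) = s(c, d) := by
  rcases s0.lt_or_eq with s0 | s0
  · exact eq_of_cross hT h1 h2 (mem_open.2 ⟨s, s0, s1, rfl⟩) hx
  · rw [← s0, lin_zero] at hx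
    exact absurd hx ((hT.1 c d h2).2.2.2 a (hT.1 a b h1).1)

theorem eq_left_of_on {S : Set Pt} {T : Set (Sym2 Pt)} (hT : NonCrossing S T) {a b p : Pt}
    (h1 : s(a, b) ∈ T) (hp : p ∈ S) {s : ℝ} (s0 : 0 ≤ s) (s1 : s < 1) (hx : lin a b s = p) :
    a = p := by
  rcases s0.lt_or_eq with s0 | s0
  · exact absurd (mem_open.2 ⟨s, s0, s1, hx.symm⟩) ((hT.1 a b h1).2.2.2 p hp)
  · rw [← s0, lin_zero] at hx
    exact hx

theorem exitE {S : Set Pt} {T : Set (Sym2 Pt)} (hT : NonCrossing S T) {p q z a b : Pt}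
    (hD : det p q z ≠ 0) (hq : s(p, q) ∈ T) (hz : s(p, z) ∈ T) (hab : s(a, b) ∈ T) {t : ℝ}
    (t0 : 0 < t) (t1 : t < 1) (hal : 0 < al p q z (lin a b t)) (hbe : 0 < be p q z (lin a b t))
    (hm : al p q z (lin a b t) + be p q z (lin a b t) ≤ 1) (ha : al p q z a + be p q z a < 1) :
    (0 < be p q z a ∧ 0 < al p q z a) ∨ a = p := by
  by_contra hcon
  rw [not_or] at hcon
  obtain ⟨τ, τ0, τ1, h⟩ := first_zero hbe hal hcon.1
  rw [← al_lin, ← be_lin, lin_lin] at h
  have s0 : 0 ≤ t * (1 - τ) := mul_nonneg t0.le (by linarith)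
  have s1 : t * (1 - τ) < 1 := by nlinarith
  have hs : al p q z (lin a b (t * (1 - τ))) + be p q z (lin a b (t * (1 - τ))) < 1 := by
    rw [← lin_lin, al_lin, be_lin]
    have h1 := mul_le_mul_of_nonneg_left hm (sub_nonneg.2 τ1)
    have h2 := mul_lt_mul_of_pos_left ha τ0
    linarith
  rcases h with ⟨h1, h2⟩ | ⟨h1, h2⟩
  · have e := eq_lin_px hD h1
    rcases h2.lt_or_eq with h2 | h2
    · have e2 := eq_of_on hT hab hq s0 s1 (mem_open.2 ⟨_, h2, by linarith, e⟩)
      rw [be_lin] at hbe
      rcases Sym2.eq_iff.1 e2 with ⟨rfl, rfl⟩ | ⟨rfl, rfl⟩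
      · simp [be_p, be_x] at hbe
      · simp [be_p, be_x] at hbe
    · rw [← h2, lin_zero] at e
      exact hcon.2 (eq_left_of_on hT hab (hT.1 p q hq).1 s0 s1 e)
  · have e := eq_lin_pu hD h1
    have e2 := eq_of_on hT hab hz s0 s1 (mem_open.2 ⟨_, h2, by linarith, e⟩)
    rw [al_lin] at hal
    rcases Sym2.eq_iff.1 e2 with ⟨rfl, rfl⟩ | ⟨rfl, rfl⟩
    · simp [al_p, al_u] at hal
    · simp [al_p, al_u] at hal

theorem hull_coord {p q z x : Pt} (hD : det p q z ≠ 0) (hx : x ∈ convexHull ℝ {p, q, z}) :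
    0 ≤ al p q z x ∧ 0 ≤ be p q z x ∧ al p q z x + be p q z x ≤ 1 := by
  have hc : Convex ℝ {y : Pt | 0 ≤ al p q z y ∧ 0 ≤ be p q z y ∧ al p q z y + be p q z y ≤ 1} := by
    intro y hy w hw a b ha hb hab
    have e : a • y + b • w = lin y w b := by
      have : a = 1 - b := by linarith
      subst this
      ext <;> simp [lin] <;> ring
    have e2 : 1 - b = a := by linarith
    simp only [Set.mem_ofPred_eq] at hy hw ⊢
    rw [e, al_lin, be_lin, e2]
    obtain ⟨y1, y2, y3⟩ := hy
    obtain ⟨w1, w2, w3⟩ := hw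
    refine ⟨by positivity, by positivity, ?_⟩
    have h1 := mul_le_mul_of_nonneg_left y3 ha
    have h2 := mul_le_mul_of_nonneg_left w3 hb
    linarith
  refine convexHull_min ?_ hc hx
  rintro y (rfl | rfl | rfl)
  · simp [al_p, be_p]
  · simp [al_x hD, be_x]
  · simp [al_u, be_u hD]

theorem mem_hull {p q z x : Pt} (hD : det p q z ≠ 0) (h1 : 0 ≤ al p q z x) (h2 : 0 ≤ be p q z x)
    (h3 : al p q z x + be p q z x ≤ 1) : x ∈ convexHull ℝ {p, q, z} := by
  have hp : p ∈ convexHull ℝ ({p, q, z} : Set Pt) := subset_convexHull _ _ (by simp)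
  have hq : q ∈ convexHull ℝ ({p, q, z} : Set Pt) := subset_convexHull _ _ (by simp)
  have hz : z ∈ convexHull ℝ ({p, q, z} : Set Pt) := subset_convexHull _ _ (by simp)
  have hc := convex_convexHull ℝ ({p, q, z} : Set Pt)
  have e : x = (1 - al p q z x - be p q z x) • p + al p q z x • q + be p q z x • z := by
    have e1 : det p q z * x.1 = (det p q z - det p x z - det p q x) * p.1 + det p x z * q.1 +
        det p q x * z.1 := by simp only [det]; ring
    have e2 : det p q z * x.2 = (det p q z - det p x z - det p q x) * p.2 + det p x z * q.2 +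
        det p q x * z.2 := by simp only [det]; ring
    ext
    · simp only [al, be, Prod.fst_add, Prod.smul_fst, smul_eq_mul]
      field_simp
      linarith
    · simp only [al, be, Prod.snd_add, Prod.smul_snd, smul_eq_mul]
      field_simp
      linarith
  rw [e]
  have := hc.sum_mem (t := Finset.univ) (w := ![1 - al p q z x - be p q z x, al p q z x, be p q z x])
    (z := ![p, q, z]) (by intro i _; fin_cases i <;> simp <;> linarith)
    (by simp [Fin.sum_univ_three]; ring) (by intro i _; fin_cases i <;> simp [hp, hq, hz])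
  simpa [Fin.sum_univ_three] using this

theorem face_of_min {S : Set Pt} {T : Set (Sym2 Pt)} (hS : S.Finite) (hG : GP S)
    (hT : IsTriangulation S T) {p q z : Pt} (hD : det p q z ≠ 0) (hq : s(p, q) ∈ T)
    (hz : s(p, z) ∈ T) (hmin : ∀ w, s(p, w) ∈ T → 0 < al p q z w → 0 < be p q z w → False) :
    IsTriangle S T p q z := by
  have hN := hT.prop
  obtain ⟨pS, qS, pq, -⟩ := hN.1 p q hq
  obtain ⟨-, zS, pz, -⟩ := hN.1 p z hz
  have qz : q ≠ z := by
    rintro rfl
    apply hD; simp only [det]; ring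
  have fromp : ∀ d t, s(p, d) ∈ T → 0 < t → 0 < al p q z (lin p d t) → 0 < be p q z (lin p d t) →
      False := by
    intro d t hd t0 h1 h2
    rw [al_lin, al_p] at h1
    rw [be_lin, be_p] at h2
    refine hmin d hd ?_ ?_
    · by_contra h; push Not at h; nlinarith
    · by_contra h; push Not at h; nlinarith
  have hW : ∀ w ∈ S, 0 < al p q z w → 0 < be p q z w → al p q z w + be p q z w ≤ 1 → False := by
    intro w0 hw0 k1 k2 k3
    obtain ⟨w, ⟨wS, w1, w2, w3⟩, hw⟩ := Set.exists_min_image
      {w | w ∈ S ∧ 0 < al p q z w ∧ 0 < be p q z w ∧ al p q z w + be p q z w ≤ 1}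
      (fun w => al p q z w + be p q z w) (hS.subset fun w h => h.1) ⟨w0, hw0, k1, k2, k3⟩
    have pw : p ≠ w := by
      rintro rfl
      simp [al_p] at w1
    refine hmin w (mem_of_no_cross hT pS wS pw (hG.not_mem_open pS wS pw) ?_) w1 w2
    intro c d hcd _ x hx hx'
    obtain ⟨μ, μ0, μ1, e⟩ := mem_open.1 hx
    have x1 : al p q z x = μ * al p q z w := by rw [e, al_lin, al_p]; ring
    have x2 : be p q z x = μ * be p q z w := by rw [e, be_lin, be_p]; ring
    have x3 : 0 < al p q z x := by rw [x1]; positivity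
    have x4 : 0 < be p q z x := by rw [x2]; positivity
    have x5 : al p q z x + be p q z x < al p q z w + be p q z w := by rw [x1, x2]; nlinarith
    have main : ∀ c d t, s(c, d) ∈ T → 0 < t → t < 1 → x = lin c d t →
        al p q z c + be p q z c ≤ al p q z x + be p q z x → False := by
      intro c d t hcd t0 t1 e' hc
      rcases exitE hN hD hq hz hcd t0 t1 (e' ▸ x3) (e' ▸ x4) (by rw [← e']; linarith)
        (by linarith) with ⟨c1, c2⟩ | rfl
      · have := hw c ⟨(hN.1 c d hcd).1, c2, c1, by linarith⟩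
        linarith
      · exact fromp d t hcd t0 (e' ▸ x3) (e' ▸ x4)
    obtain ⟨t, t0, t1, e'⟩ := mem_open.1 hx'
    by_cases hc : al p q z c + be p q z c ≤ al p q z x + be p q z x
    · exact main c d t hcd t0 t1 e' hc
    · refine main d c (1 - t) (Sym2.eq_swap ▸ hcd) (by linarith) (by linarith)
        (e'.trans (lin_swap _ _ _)) ?_
      have y1 := al_lin p q z c d t
      have y2 := be_lin p q z c d t
      rw [← e'] at y1 y2
      push Not at hc
      by_contra hd
      push Not at hd
      have h1 := mul_lt_mul_of_pos_left hc (sub_pos.2 t1)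
      have h2 := mul_lt_mul_of_pos_left hd t0
      linarith
  refine ⟨hq, ?_, Sym2.eq_swap ▸ hz, ?_⟩
  · refine mem_of_no_cross hT qS zS qz (hG.not_mem_open qS zS qz) ?_
    intro c d hcd hne x hx hx'
    obtain ⟨μ, μ0, μ1, e⟩ := mem_open.1 hx
    have x1 : al p q z x = 1 - μ := by rw [e, al_lin, al_x hD, al_u]; ring
    have x2 : be p q z x = μ := by rw [e, be_lin, be_x, be_u hD]; ring
    have main : ∀ c d t, s(c, d) ∈ T → 0 < t → t < 1 → x = lin c d t →
        al p q z c + be p q z c < 1 → False := by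
      intro c d t hcd t0 t1 e' hc
      rcases exitE hN hD hq hz hcd t0 t1 (by rw [← e', x1]; linarith) (by rw [← e', x2]; linarith)
        (by rw [← e', x1, x2]; linarith) hc with ⟨c1, c2⟩ | rfl
      · exact hW c (hN.1 c d hcd).1 c2 c1 hc.le
      · exact fromp d t hcd t0 (by rw [← e', x1]; linarith) (by rw [← e', x2]; linarith)
    obtain ⟨t, t0, t1, e'⟩ := mem_open.1 hx'
    by_cases hc : al p q z c + be p q z c < 1
    · exact main c d t hcd t0 t1 e' hc
    by_cases hd : al p q z d + be p q z d < 1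
    · exact main d c (1 - t) (Sym2.eq_swap ▸ hcd) (by linarith) (by linarith)
        (e'.trans (lin_swap _ _ _)) hd
    push Not at hc hd
    have y1 := al_lin p q z c d t
    have y2 := be_lin p q z c d t
    rw [← e', x1] at y1
    rw [← e', x2] at y2
    have h1 := mul_le_mul_of_nonneg_left hc (sub_pos.2 t1).le
    have h2 := mul_le_mul_of_nonneg_left hd t0.le
    have c1 : al p q z c + be p q z c = 1 := by
      by_contra h
      have h3 : 1 < al p q z c + be p q z c := lt_of_le_of_ne hc (Ne.symm h)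
      have := mul_lt_mul_of_pos_left h3 (sub_pos.2 t1)
      linarith
    have d1 : al p q z d + be p q z d = 1 := by
      by_contra h
      have h3 : 1 < al p q z d + be p q z d := lt_of_le_of_ne hd (Ne.symm h)
      have := mul_lt_mul_of_pos_left h3 t0
      linarith
    have on : ∀ y ∈ S, al p q z y + be p q z y = 1 → y = q ∨ y = z := by
      intro y hy h
      by_contra h'
      rw [not_or] at h'
      refine hG q qS z zS y hy qz (Ne.symm h'.1) (Ne.symm h'.2) ?_
      rw [eq_lin_xu hD h, det_lin_self]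
    obtain ⟨cS, dS, cd, -⟩ := hN.1 c d hcd
    rcases on c cS c1 with rfl | rfl <;> rcases on d dS d1 with rfl | rfl
    · exact cd rfl
    · exact hne rfl
    · exact hne Sym2.eq_swap
    · exact cd rfl
  · intro x hx hx'
    obtain ⟨h1, h2, h3⟩ := hull_coord hD hx'
    by_contra h
    simp only [not_or] at h
    refine hW x hx (lt_of_le_of_ne h1 ?_) (lt_of_le_of_ne h2 ?_) h3
    · intro e
      refine hG p pS z zS x hx pz (Ne.symm h.1) (Ne.symm h.2.2) ?_
      rw [eq_lin_pu hD e.symm, det_lin_self]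
    · intro e
      refine hG p pS q qS x hx pq (Ne.symm h.1) (Ne.symm h.2.1) ?_
      rw [eq_lin_px hD e.symm, det_lin_self]

theorem exists_left_nbr {S : Set Pt} {T : Set (Sym2 Pt)} (hS : S.Finite) (hG : GP S)
    (hT : IsTriangulation S T) {p q z : Pt} (pS : p ∈ S) (zS : z ∈ S) (hz : 0 < det p q z) :
    ∃ w, s(p, w) ∈ T ∧ 0 < det p q w := by
  have hN := hT.prop
  have dp : det p q p = 0 := by simp only [det]; ring
  have pz : p ≠ z := by
    rintro rfl
    rw [dp] at hz
    exact lt_irrefl _ hz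
  by_contra hcon
  push Not at hcon
  have hpz : s(p, z) ∉ T := fun h => absurd (hcon z h) (not_le.2 hz)
  -- edges crossing `p z`
  have par : ∀ a b t, s(a, b) ∈ T → 0 < t → t < 1 → lin p z t ∈ openSegment ℝ a b →
      det a b p ≠ 0 ∧ t = det a b p / (det a b p - det a b z) := by
    intro a b t hab t0 t1 hx
    obtain ⟨aS, bS, ab, -⟩ := hN.1 a b hab
    obtain ⟨s, s0, s1, e⟩ := mem_open.1 hx
    have h1 := det_lin a b p z t
    rw [e, det_lin_self] at h1
    have h2 : det a b p ≠ 0 := by
      intro h2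
      have h3 : det a b z = 0 := by
        rw [h2] at h1
        have : t * det a b z = 0 := by linarith
        exact (mul_eq_zero.1 this).resolve_left t0.ne'
      have on : ∀ y ∈ S, det a b y = 0 → y = a ∨ y = b := by
        intro y hy h
        by_contra h'
        rw [not_or] at h'
        exact hG a aS b bS y hy ab (Ne.symm h'.1) (Ne.symm h'.2) h
      rcases on p pS h2 with rfl | rfl <;> rcases on z zS h3 with rfl | rfl
      · exact pz rfl
      · exact hpz hab
      · exact hpz (Sym2.eq_swap ▸ hab)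
      · exact pz rfl
    refine ⟨h2, ?_⟩
    have h3 : det a b p - det a b z ≠ 0 := by
      intro h3
      apply h2
      have : det a b z = det a b p := by linarith
      rw [this] at h1
      linarith
    field_simp
    linarith
  have hne : ∃ c d, s(c, d) ∈ T ∧ ∃ t, 0 < t ∧ t < 1 ∧ lin p z t ∈ openSegment ℝ c d := by
    by_contra h
    push Not at h
    refine hpz (mem_of_no_cross hT pS zS pz (hG.not_mem_open pS zS pz) ?_)
    intro c d hcd _ x hx hx'
    obtain ⟨t, t0, t1, rfl⟩ := mem_open.1 hx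
    exact h c d hcd t t0 t1 hx'
  obtain ⟨c0, d0, hcd0, ht0⟩ := hne
  obtain ⟨⟨u0, v0⟩, ⟨huv0, ξ, ξ0, ξ1, hx0⟩, hmin⟩ := Set.exists_min_image
    {e : Pt × Pt | s(e.1, e.2) ∈ T ∧ ∃ t, 0 < t ∧ t < 1 ∧ lin p z t ∈ openSegment ℝ e.1 e.2}
    (fun e => det e.1 e.2 p / (det e.1 e.2 p - det e.1 e.2 z))
    ((hS.prod hS).subset fun e h => ⟨(hN.1 _ _ h.1).1, (hN.1 _ _ h.1).2.1⟩)
    ⟨(c0, d0), hcd0, ht0⟩
  simp only at huv0 hx0 hmin
  have hξ : ∀ a b t, s(a, b) ∈ T → 0 < t → t < 1 → lin p z t ∈ openSegment ℝ a b → ξ ≤ t := by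
    intro a b t hab t0 t1 hx
    have h1 := hmin (a, b) ⟨hab, t, t0, t1, hx⟩
    rw [← (par _ _ _ huv0 ξ0 ξ1 hx0).2] at h1
    simp only at h1
    rw [← (par _ _ _ hab t0 t1 hx).2] at h1
    exact h1
  have hxl : 0 < det p q (lin p z ξ) := by rw [det_lin, dp]; nlinarith
  obtain ⟨u, v, r, huv, r0, r1, hx, hu⟩ : ∃ u v r, s(u, v) ∈ T ∧ 0 < r ∧ r < 1 ∧
      lin p z ξ = lin u v r ∧ 0 < det p q u := by
    obtain ⟨r, r0, r1, e⟩ := mem_open.1 hx0
    by_cases h : 0 < det p q u0
    · exact ⟨u0, v0, r, huv0, r0, r1, e, h⟩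
    · refine ⟨v0, u0, 1 - r, Sym2.eq_swap ▸ huv0, by linarith, by linarith,
        e.trans (lin_swap _ _ _), ?_⟩
      rw [e, det_lin] at hxl
      push Not at h
      by_contra h'
      push Not at h'
      nlinarith
  set x := lin p z ξ with hxdef
  have hD : det p x u ≠ 0 := by
    have h1 := (par u v ξ huv ξ0 ξ1 (mem_open.2 ⟨r, r0, r1, hx⟩)).1
    have h2 : det p x u = -(r * det u v p) := by rw [hx]; simp only [det, lin]; ring
    rw [h2]
    exact neg_ne_zero.2 (mul_ne_zero r0.ne' h1)
  have hv : al p x u v + be p x u v = 1 := by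
    have y1 := al_lin p x u u v r
    have y2 := be_lin p x u u v r
    rw [← hx, al_x hD, al_u] at y1
    rw [← hx, be_x, be_u hD] at y2
    have : r * (al p x u v + be p x u v - 1) = 0 := by linarith
    have := (mul_eq_zero.1 this).resolve_left r0.ne'
    linarith
  obtain ⟨uS, vS, uv, -⟩ := hN.1 u v huv
  obtain ⟨w, ⟨wS, w1, w2, w3⟩, hw⟩ := Set.exists_max_image
    {w | w ∈ S ∧ 0 ≤ al p x u w ∧ 0 < be p x u w ∧ al p x u w + be p x u w ≤ 1}
    (fun w => al p x u w / be p x u w) (hS.subset fun w h => h.1)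
    ⟨u, uS, by simp [al_u], by simp [be_u hD], by simp [al_u, be_u hD]⟩
  have pw : p ≠ w := by
    rintro rfl
    simp [be_p] at w2
  have hwl : 0 < det p q w := by
    have e : det p q w = al p x u w * det p q x + be p x u w * det p q u := by
      simp only [al, be]
      field_simp
      simp only [det]
      ring
    rw [e]
    have := mul_nonneg w1 hxl.le
    have := mul_pos w2 hu
    linarith
  refine absurd (hcon w (mem_of_no_cross hT pS wS pw (hG.not_mem_open pS wS pw) ?_)) (not_le.2 hwl)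
  intro c d hcd hne m hm hm'
  obtain ⟨μ, μ0, μ1, e⟩ := mem_open.1 hm
  have m1 : al p x u m = μ * al p x u w := by rw [e, al_lin, al_p]; ring
  have m2 : be p x u m = μ * be p x u w := by rw [e, be_lin, be_p]; ring
  have m3 : 0 < be p x u m := by rw [m2]; positivity
  have m4 : 0 < 1 - (al p x u m + be p x u m) := by rw [m1, m2]; nlinarith
  have main : ∀ a b t, s(a, b) ∈ T → 0 < t → t < 1 → m = lin a b t →
      0 < be p x u w * al p x u a - al p x u w * be p x u a → False := by
    intro a b t hab t0 t1 e' ha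
    have aS := (hN.1 a b hab).1
    have notuv : s(a, b) ≠ s(u, v) := by
      intro e2
      have y1 := al_lin p x u a b t
      have y2 := be_lin p x u a b t
      rw [← e'] at y1 y2
      rcases Sym2.eq_iff.1 e2 with ⟨rfl, rfl⟩ | ⟨rfl, rfl⟩
      · rw [al_u] at y1
        rw [be_u hD] at y2
        have : al p x a m + be p x a m = 1 := by linear_combination y1 + y2 + t * hv
        linarith
      · rw [al_u] at y1
        rw [be_u hD] at y2
        have : al p x b m + be p x b m = 1 := by linear_combination y1 + y2 + (1 - t) * hv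
        linarith
    by_cases hin : 0 < be p x u a ∧ 0 < 1 - (al p x u a + be p x u a)
    · have a1 : 0 ≤ al p x u a := by
        by_contra h
        push Not at h
        have := mul_nonneg w1 hin.1.le
        have := mul_neg_of_pos_of_neg w2 h
        linarith
      have h1 := hw a ⟨aS, a1, hin.1, by linarith [hin.2]⟩
      rw [div_le_div_iff₀ hin.1 w2] at h1
      linarith
    obtain ⟨τ, τ0, τ1, h⟩ := first_zero m3 m4 hin
    have s0 : 0 ≤ t * (1 - τ) := mul_nonneg t0.le (by linarith)
    have s1 : t * (1 - τ) < 1 := by nlinarith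
    have y1 := al_lin p x u m a τ
    have y2 := be_lin p x u m a τ
    have ey : lin m a τ = lin a b (t * (1 - τ)) := by rw [e', lin_lin]
    set y := lin m a τ with hy
    have y3 : 0 < be p x u w * al p x u y - al p x u w * be p x u y := by
      rw [y1, y2, m1, m2]
      have := mul_pos τ0 ha
      linarith
    rcases h with ⟨h1, h2⟩ | ⟨h1, h2⟩
    · have b0 : be p x u y = 0 := by linarith
      have a0 : 0 < al p x u y := by
        rw [b0] at y3
        by_contra h
        push Not at h
        nlinarith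
      have a1 : al p x u y ≤ 1 := by linarith
      have e3 : y = lin p z (ξ * al p x u y) := by
        refine (eq_lin_px hD b0).trans ?_
        ext <;> simp only [hxdef, lin] <;> ring
      have k0 : 0 < ξ * al p x u y := mul_pos ξ0 a0
      have k1 : ξ * al p x u y < 1 := by nlinarith
      rcases s0.lt_or_eq with s0' | s0'
      · have h4 := hξ a b _ hab k0 k1 (by rw [← e3, ey]; exact mem_open.2 ⟨_, s0', s1, rfl⟩)
        have a2 : al p x u y = 1 := by nlinarith
        have e4 : y = lin u v r := by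
          rw [← hx, e3, a2, mul_one]
        exact notuv (eq_of_on hN hab huv s0 s1 (by rw [← ey]; exact mem_open.2 ⟨r, r0, r1, e4⟩))
      · rw [← s0', lin_zero] at ey
        exact hG.not_mem_open pS zS pz a aS (mem_open.2 ⟨_, k0, k1, ey ▸ e3⟩)
    · have b0 : 0 < be p x u y := by linarith
      have a0 : 0 < al p x u y := by
        by_contra h
        push Not at h
        have := mul_nonneg w1 b0.le
        have := mul_nonpos_of_nonneg_of_nonpos w2.le h
        linarith
      have a1 : al p x u y + be p x u y = 1 := by linarith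
      have e3 : y = lin u v (r * (1 - be p x u y)) := by
        rw [← lin_lin, ← hx]
        exact eq_lin_xu hD a1
      have k0 : 0 < r * (1 - be p x u y) := mul_pos r0 (by linarith)
      have k1 : r * (1 - be p x u y) < 1 := by nlinarith
      exact notuv (eq_of_on hN hab huv s0 s1 (by rw [← ey]; exact mem_open.2 ⟨_, k0, k1, e3⟩))
  obtain ⟨t, t0, t1, e'⟩ := mem_open.1 hm'
  have hdet : ∀ y, be p x u w * al p x u y - al p x u w * be p x u y = -(det p w y / det p x u) := by
    intro y
    simp only [al, be]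
    field_simp
    simp only [det]
    ring
  obtain ⟨cS, dS, cd, -⟩ := hN.1 c d hcd
  have hcr : det p w c * det p w d < 0 := by
    refine det_of_cross hm hm' ?_
    by_contra h
    rw [not_or, not_not, not_not] at h
    have on : ∀ y ∈ S, det p w y = 0 → y = p ∨ y = w := by
      intro y hy h
      by_contra h'
      rw [not_or] at h'
      exact hG p pS w wS y hy pw (Ne.symm h'.1) (Ne.symm h'.2) h
    rcases on c cS h.1 with rfl | rfl <;> rcases on d dS h.2 with rfl | rfl
    · exact cd rfl
    · exact hne rfl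
    · exact hne Sym2.eq_swap
    · exact cd rfl
  have hcr2 : (-(det p w c / det p x u)) * (-(det p w d / det p x u)) < 0 := by
    have : (-(det p w c / det p x u)) * (-(det p w d / det p x u)) =
        (det p w c * det p w d) / (det p x u * det p x u) := by field_simp
    rw [this]
    exact div_neg_of_neg_of_pos hcr (mul_self_pos.2 hD)
  rcases lt_or_ge 0 (-(det p w c / det p x u)) with hc | hc
  · exact main c d t hcd t0 t1 e' (by rw [hdet]; exact hc)
  · refine main d c (1 - t) (Sym2.eq_swap ▸ hcd) (by linarith) (by linarith)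
      (e'.trans (lin_swap _ _ _)) ?_
    rw [hdet]
    by_contra h
    push Not at h
    have := mul_nonneg_of_nonpos_of_nonpos hc h
    linarith

/-- Next to an edge of a triangulation, on a side containing a point, there is a triangle. -/
theorem exists_face {S : Set Pt} {T : Set (Sym2 Pt)} (hS : S.Finite) (hG : GP S)
    (hT : IsTriangulation S T) {p q z : Pt} (hq : s(p, q) ∈ T) (zS : z ∈ S)
    (hz : 0 < det p q z) : ∃ w, 0 < det p q w ∧ IsTriangle S T p q w := by
  have hN := hT.prop
  obtain ⟨pS, qS, pq, -⟩ := hN.1 p q hq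
  obtain ⟨w0, hw0⟩ := exists_left_nbr hS hG hT pS zS hz
  obtain ⟨w, ⟨w1, w2⟩, hw⟩ := Set.exists_max_image {w | s(p, w) ∈ T ∧ 0 < det p q w}
    (fun w => ((w.1 - p.1) * (q.1 - p.1) + (w.2 - p.2) * (q.2 - p.2)) / det p q w)
    (hS.subset fun w h => (hN.1 _ _ h.1).2.1) ⟨w0, hw0⟩
  refine ⟨w, w2, face_of_min hS hG hT w2.ne' hq w1 ?_⟩
  intro y hy y1 y2
  have d1 : 0 < det p q y := by
    have := mul_pos y2 w2
    simp only [be] at this
    rwa [div_mul_cancel₀ _ w2.ne'] at this
  have d2 : 0 < det p y w := by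
    have := mul_pos y1 w2
    simp only [al] at this
    rwa [div_mul_cancel₀ _ w2.ne'] at this
  have h := hw y ⟨hy, d1⟩
  rw [div_le_div_iff₀ d1 w2] at h
  have hq2 : 0 < (q.1 - p.1) ^ 2 + (q.2 - p.2) ^ 2 := by
    by_contra h0
    push Not at h0
    have e1 : q.1 - p.1 = 0 := by nlinarith [sq_nonneg (q.1 - p.1), sq_nonneg (q.2 - p.2)]
    have e2 : q.2 - p.2 = 0 := by nlinarith [sq_nonneg (q.1 - p.1), sq_nonneg (q.2 - p.2)]
    apply pq
    ext <;> linarith
  have e : ((y.1 - p.1) * (q.1 - p.1) + (y.2 - p.2) * (q.2 - p.2)) * det p q w -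
      ((w.1 - p.1) * (q.1 - p.1) + (w.2 - p.2) * (q.2 - p.2)) * det p q y =
      det p y w * ((q.1 - p.1) ^ 2 + (q.2 - p.2) ^ 2) := by
    simp only [det]; ring
  have := mul_pos d2 hq2
  linarith

end Pool.Agent.H579Z.Area
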