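import Pool.Agent.H579Z.Area.Defs

set_option autoImplicit false

/-! Plane geometry: orientation determinants, crossings, and the triangle next to an edge. -/

namespace Pool.Agent.H579Z.Area

/-- orientation determinant -/
def det (a b c : Pt) : ℝ := (b.1 - a.1) * (c.2 - a.2) - (b.2 - a.2) * (c.1 - a.1)

/-- point on the line `a b` with parameter `t` -/
def lin (a b : Pt) (t : ℝ) : Pt := (a.1 + t * (b.1 - a.1), a.2 + t * (b.2 - a.2))

theorem mem_open {a b x : Pt} : x ∈ openSegment ℝ a b ↔ ∃ t, 0 < t ∧ t < 1 ∧ x = lin a b t := by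
  rw [openSegment_eq_image']
  constructor
  · rintro ⟨t, ⟨h0, h1⟩, rfl⟩
    exact ⟨t, h0, h1, by ext <;> simp [lin]⟩
  · rintro ⟨t, h0, h1, rfl⟩
    exact ⟨t, ⟨h0, h1⟩, by ext <;> simp [lin]⟩

theorem det_lin (a b c d : Pt) (t : ℝ) :
    det a b (lin c d t) = (1 - t) * det a b c + t * det a b d := by
  simp only [det, lin]; ring

theorem det_lin_self (a b : Pt) (t : ℝ) : det a b (lin a b t) = 0 := by
  simp only [det, lin]; ring

theorem lin_lin (a b : Pt) (s t : ℝ) : lin (lin a b s) a t = lin a b (s * (1 - t)) := by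
  ext <;> simp only [lin] <;> ring

theorem lin_one (a b : Pt) : lin a b 1 = b := by ext <;> simp [lin]

theorem lin_zero (a b : Pt) : lin a b 0 = a := by ext <;> simp [lin]

theorem lin_swap (a b : Pt) (t : ℝ) : lin a b t = lin b a (1 - t) := by
  ext <;> simp only [lin] <;> ring

theorem cross_of_det {a b c d : Pt} (h1 : det a b c * det a b d < 0)
    (h2 : det c d a * det c d b < 0) :
    ∃ x, x ∈ openSegment ℝ a b ∧ x ∈ openSegment ℝ c d := by
  have key : ∀ u v : ℝ, u * v < 0 → 0 < u / (u - v) ∧ u / (u - v) < 1 ∧ u - v ≠ 0 := by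
    intro u v h
    rcases lt_trichotomy u 0 with hu | hu | hu
    · have hv : 0 < v := by nlinarith
      refine ⟨div_pos_of_neg_of_neg hu (by linarith), ?_, by linarith⟩
      rw [div_lt_one_of_neg (by linarith)]; linarith
    · simp [hu] at h
    · have hv : v < 0 := by nlinarith
      refine ⟨div_pos hu (by linarith), ?_, by linarith⟩
      rw [div_lt_one (by linarith)]; linarith
  obtain ⟨a1, a2, a3⟩ := key _ _ h1
  obtain ⟨b1, b2, b3⟩ := key _ _ h2
  refine ⟨_, mem_open.2 ⟨_, b1, b2, rfl⟩, mem_open.2 ⟨_, a1, a2, ?_⟩⟩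
  have e : det a b c - det a b d = -(det c d a - det c d b) := by simp only [det]; ring
  rw [e]
  ext
  · simp only [lin]; field_simp; simp only [det]; ring
  · simp only [lin]; field_simp; simp only [det]; ring

theorem det_of_cross {a b c d x : Pt} (h1 : x ∈ openSegment ℝ a b) (h2 : x ∈ openSegment ℝ c d)
    (h : det a b c ≠ 0 ∨ det a b d ≠ 0) : det a b c * det a b d < 0 := by
  obtain ⟨s, -, -, rfl⟩ := mem_open.1 h1
  obtain ⟨t, t0, t1, e⟩ := mem_open.1 h2
  have h3 := det_lin a b c d t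
  rw [← e, det_lin_self] at h3
  have h4 : 0 < 1 - t := by linarith
  rcases h with h | h
  · have h5 : 0 < det a b c * det a b c := mul_self_pos.2 h
    have h6 : t * (det a b c * det a b d) = -((1 - t) * (det a b c * det a b c)) := by
      linear_combination (-det a b c) * h3
    have h7 : 0 < (1 - t) * (det a b c * det a b c) := mul_pos h4 h5
    by_contra h8
    push Not at h8
    have := mul_nonneg t0.le h8
    linarith
  · have h5 : 0 < det a b d * det a b d := mul_self_pos.2 h
    have h6 : (1 - t) * (det a b c * det a b d) = -(t * (det a b d * det a b d)) := by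
      linear_combination (-det a b d) * h3
    have h7 : 0 < t * (det a b d * det a b d) := mul_pos t0 h5
    by_contra h8
    push Not at h8
    have := mul_nonneg h4.le h8
    linarith

/-- general position -/
def GP (S : Set Pt) : Prop :=
  ∀ a ∈ S, ∀ b ∈ S, ∀ c ∈ S, a ≠ b → a ≠ c → b ≠ c → det a b c ≠ 0

theorem lin_ne_left {a b : Pt} (hab : a ≠ b) {t : ℝ} (ht : t ≠ 0) : lin a b t ≠ a := by
  intro h
  apply hab
  have h1 := congrArg Prod.fst h
  have h2 := congrArg Prod.snd h
  simp only [lin] at h1 h2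
  have h3 : t * (b.1 - a.1) = 0 := by linarith
  have h4 : t * (b.2 - a.2) = 0 := by linarith
  rcases mul_eq_zero.1 h3 with h3 | h3
  · exact absurd h3 ht
  rcases mul_eq_zero.1 h4 with h4 | h4
  · exact absurd h4 ht
  ext <;> linarith

theorem GP.not_mem_open {S : Set Pt} (h : GP S) {a b : Pt} (ha : a ∈ S) (hb : b ∈ S) (hab : a ≠ b) :
    ∀ x ∈ S, x ∉ openSegment ℝ a b := by
  intro x hx hm
  obtain ⟨t, t0, t1, rfl⟩ := mem_open.1 hm
  refine h a ha b hb _ hx hab (lin_ne_left hab t0.ne').symm ?_ (det_lin_self _ _ _)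
  rw [lin_swap]
  exact (lin_ne_left hab.symm (by linarith)).symm

theorem mem_of_no_cross {S : Set Pt} {T : Set (Sym2 Pt)} (hT : IsTriangulation S T) {a b : Pt}
    (ha : a ∈ S) (hb : b ∈ S) (hab : a ≠ b) (h0 : ∀ x ∈ S, x ∉ openSegment ℝ a b)
    (h : ∀ c d, s(c, d) ∈ T → s(c, d) ≠ s(a, b) →
      ∀ x, x ∈ openSegment ℝ a b → x ∈ openSegment ℝ c d → False) : s(a, b) ∈ T := by
  have hseg : ∀ c d : Pt, s(c, d) = s(a, b) → openSegment ℝ c d = openSegment ℝ a b := by
    intro c d e
    rcases Sym2.eq_iff.1 e with ⟨rfl, rfl⟩ | ⟨rfl, rfl⟩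
    · rfl
    · exact openSegment_symm _ _ _
  have hN : NonCrossing S (insert s(a, b) T) := by
    constructor
    · intro c d hcd
      rcases hcd with e | hcd
      · rw [hseg c d e]
        rcases Sym2.eq_iff.1 e with ⟨rfl, rfl⟩ | ⟨rfl, rfl⟩
        · exact ⟨ha, hb, hab, h0⟩
        · exact ⟨hb, ha, hab.symm, h0⟩
      · exact hT.prop.1 c d hcd
    · intro c d c' d' h1 h2 hne
      rcases h1 with e | h1 <;> rcases h2 with e' | h2
      · exact absurd (e.trans e'.symm) hne
      · rw [hseg c d e, Set.disjoint_left]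
        intro x hx hx'
        exact h c' d' h2 (fun e2 => hne (e.trans e2.symm)) x hx hx'
      · rw [hseg c' d' e', Set.disjoint_left]
        intro x hx hx'
        exact h c d h1 (fun e2 => hne (e2.trans e'.symm)) x hx' hx
      · exact hT.prop.2 c d c' d' h1 h2 hne
  exact hT.le_of_ge hN (Set.subset_insert _ _) (Set.mem_insert _ _)

theorem eq_of_cross {S : Set Pt} {T : Set (Sym2 Pt)} (hT : NonCrossing S T) {a b c d x : Pt}
    (h1 : s(a, b) ∈ T) (h2 : s(c, d) ∈ T) (hx : x ∈ openSegment ℝ a b)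
    (hx' : x ∈ openSegment ℝ c d) : s(a, b) = s(c, d) := by
  by_contra hne
  exact Set.disjoint_left.1 (hT.2 a b c d h1 h2 hne) hx hx'

/-- first frame coordinate -/
noncomputable def al (p x u y : Pt) : ℝ := det p y u / det p x u

/-- second frame coordinate -/
noncomputable def be (p x u y : Pt) : ℝ := det p x y / det p x u

theorem al_lin (p x u a b : Pt) (t : ℝ) :
    al p x u (lin a b t) = (1 - t) * al p x u a + t * al p x u b := by
  simp only [al, det, lin]; ring

theorem be_lin (p x u a b : Pt) (t : ℝ) :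
    be p x u (lin a b t) = (1 - t) * be p x u a + t * be p x u b := by
  simp only [be, det, lin]; ring

theorem al_p (p x u : Pt) : al p x u p = 0 := by simp [al, det]
theorem be_p (p x u : Pt) : be p x u p = 0 := by simp [be, det]
theorem al_u (p x u : Pt) : al p x u u = 0 := by
  have : det p u u = 0 := by simp only [det]; ring
  simp [al, this]
theorem be_x (p x u : Pt) : be p x u x = 0 := by
  have : det p x x = 0 := by simp only [det]; ring
  simp [be, this]
theorem al_x {p x u : Pt} (h : det p x u ≠ 0) : al p x u x = 1 := div_self h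
theorem be_u {p x u : Pt} (h : det p x u ≠ 0) : be p x u u = 1 := div_self h

theorem frame_ext {p x u : Pt} (h : det p x u ≠ 0) {y z : Pt} (h1 : al p x u y = al p x u z)
    (h2 : be p x u y = be p x u z) : y = z := by
  simp only [al, be] at h1 h2
  rw [div_left_inj' h] at h1 h2
  have e1 : det p x u * (y.1 - z.1) = 0 := by
    simp only [det] at h1 h2 ⊢
    linear_combination (x.1 - p.1) * h1 + (u.1 - p.1) * h2
  have e2 : det p x u * (y.2 - z.2) = 0 := by
    simp only [det] at h1 h2 ⊢
    linear_combination (x.2 - p.2) * h1 + (u.2 - p.2) * h2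
  ext
  · have := (mul_eq_zero.1 e1).resolve_left h; linarith
  · have := (mul_eq_zero.1 e2).resolve_left h; linarith

theorem eq_lin_px {p x u : Pt} (h : det p x u ≠ 0) {y : Pt} (h2 : be p x u y = 0) :
    y = lin p x (al p x u y) := by
  apply frame_ext h
  · rw [al_lin, al_p, al_x h]; ring
  · rw [be_lin, be_p, be_x, h2]; ring

theorem eq_lin_pu {p x u : Pt} (h : det p x u ≠ 0) {y : Pt} (h2 : al p x u y = 0) :
    y = lin p u (be p x u y) := by
  apply frame_ext h
  · rw [al_lin, al_p, al_u, h2]; ring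
  · rw [be_lin, be_p, be_u h]; ring

theorem eq_lin_xu {p x u : Pt} (h : det p x u ≠ 0) {y : Pt} (h2 : al p x u y + be p x u y = 1) :
    y = lin x u (be p x u y) := by
  apply frame_ext h
  · rw [al_lin, al_x h, al_u]; linarith
  · rw [be_lin, be_x, be_u h]; ring

/-- two affine functions, positive at `0`, not both positive at `1` -/
theorem first_zero {a0 a1 b0 b1 : ℝ} (ha : 0 < a0) (hb : 0 < b0) (h : ¬ (0 < a1 ∧ 0 < b1)) :
    ∃ t, 0 < t ∧ t ≤ 1 ∧ (((1 - t) * a0 + t * a1 = 0 ∧ 0 ≤ (1 - t) * b0 + t * b1) ∨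
      ((1 - t) * b0 + t * b1 = 0 ∧ 0 < (1 - t) * a0 + t * a1)) := by
  have root : ∀ c0 c1 : ℝ, 0 < c0 → c1 ≤ 0 → ∃ t, 0 < t ∧ t ≤ 1 ∧ (1 - t) * c0 + t * c1 = 0 := by
    intro c0 c1 h0 h1
    have hd : 0 < c0 - c1 := by linarith
    refine ⟨c0 / (c0 - c1), div_pos h0 hd, ?_, ?_⟩
    · rw [div_le_one hd]; linarith
    · field_simp; ring
  by_cases h1 : a1 ≤ 0
  · obtain ⟨t, t0, t1, e⟩ := root a0 a1 ha h1
    by_cases h2 : 0 ≤ (1 - t) * b0 + t * b1
    · exact ⟨t, t0, t1, Or.inl ⟨e, h2⟩⟩
    · push Not at h2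
      obtain ⟨s, s0, s1, e'⟩ := root b0 ((1 - t) * b0 + t * b1) hb h2.le
      have s2 : s < 1 := by
        rcases s1.lt_or_eq with s2 | s2
        · exact s2
        · rw [s2] at e'; linarith
      refine ⟨s * t, mul_pos s0 t0, by nlinarith, Or.inr ⟨by linear_combination e', ?_⟩⟩
      have : (1 - s * t) * a0 + s * t * a1 = (1 - s) * a0 := by linear_combination s * e
      rw [this]
      exact mul_pos (by linarith) ha
  · push Not at h1
    have h2 : b1 ≤ 0 := by
      by_contra h3
      exact h ⟨h1, not_le.1 h3⟩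
    obtain ⟨t, t0, t1, e⟩ := root b0 b1 hb h2
    refine ⟨t, t0, t1, Or.inr ⟨e, ?_⟩⟩
    have := mul_pos t0 h1
    have := mul_nonneg (sub_nonneg.2 t1) ha.le
    linarith

end Pool.Agent.H579Z.Area
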