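import Pool.Agent.H579Z.Area.Tile

set_option autoImplicit false

/-! The grid of tiles simulates monotone satisfiability. -/

namespace Pool.Agent.H579Z.Area

def idx (n i j s : ℕ) : ℕ := 16 * (j * n + i) + s

theorem idx_div {n i j s : ℕ} (hs : s < 16) : idx n i j s / 16 = j * n + i := by
  simp only [idx]; omega

theorem idx_mod {n i j s : ℕ} (hs : s < 16) : idx n i j s % 16 = s := by
  simp only [idx]; omega

theorem til_mod {n i j : ℕ} (hi : i < n) : (j * n + i) % n = i := by
  rw [Nat.mul_add_mod_of_lt hi]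

theorem til_div {n i j : ℕ} (hi : i < n) : (j * n + i) / n = j := by
  rw [Nat.add_comm, Nat.add_mul_div_right _ _ (by omega), Nat.div_eq_of_lt hi, Nat.zero_add]

theorem idx_lt {n r i j s : ℕ} (hi : i < n) (hj : j < r) (hs : s < 16) :
    idx n i j s < 16 * (n * r) := by
  have : (j + 1) * n ≤ r * n := Nat.mul_le_mul_right _ hj
  simp only [idx]
  rw [Nat.mul_comm n r]
  rw [Nat.add_mul] at this
  omega

theorem Qz_idx {n i j s : ℕ} (hi : i < n) (hs : s < 16) :
    Qz n (idx n i j s) = off i j + base s := by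
  simp only [Qz, idx_div hs, idx_mod hs, til_mod hi, til_div hi]

theorem exists_idx {n r t : ℕ} (ht : t < 16 * (n * r)) :
    ∃ i j s, i < n ∧ j < r ∧ s < 16 ∧ t = idx n i j s := by
  have hn : 0 < n := by
    rcases Nat.eq_zero_or_pos n with rfl | h
    · simp at ht
    · exact h
  refine ⟨t / 16 % n, t / 16 / n, t % 16, Nat.mod_lt _ hn, ?_, Nat.mod_lt _ (by norm_num), ?_⟩
  · rw [Nat.div_lt_iff_lt_mul hn, Nat.mul_comm r n]; omega
  · simp only [idx]
    rw [Nat.div_add_mod' (t / 16) n]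
    omega

theorem opt_idx {n r i j s : ℕ} {F G : ℕ → ℕ → Bool} (hi : i < n) (hj : j < r) (hs : s < 16)
    {y : ℕ} : (cfg n r F G).opt (idx n i j s) y ↔ ∃ e, y = idx n i j e ∧ s = grp e ∧
      okB (decide (i = 0)) (decide (i + 1 = n)) (F i j) (G i j) e = true := by
  change optB n (16 * (n * r)) F G (idx n i j s) y = true ↔ _
  rw [optB_iff, idx_div hs, idx_mod hs]
  constructor
  · rintro ⟨-, h2, h3, h4⟩
    rw [← h2, til_mod hi, til_div hi] at h4
    refine ⟨y % 16, ?_, h3, h4⟩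
    simp only [idx]; omega
  · rintro ⟨e, rfl, h3, h4⟩
    have he := (base_lt _ (okB_mem h4)).2.2.1
    rw [idx_div he, idx_mod he, til_mod hi, til_div hi]
    exact ⟨idx_lt hi hj he, rfl, h3, h4⟩

theorem ok_cases : ∀ a b F G : Bool, ∀ e ∈ ends, okB a b F G e = true →
    (0 = grp e → e = 1 ∨ e = 2 ∨ e = 3 ∨ e = 4) ∧ (5 = grp e → e = 6 ∨ e = 7) ∧
    (8 = grp e → (e = 9 ∧ G = false) ∨ (e = 10 ∧ G = true) ∨ (e = 11 ∧ b = false)) ∧
    (12 = grp e → (e = 13 ∧ a = false) ∨ (e = 14 ∧ F = false) ∨ (e = 15 ∧ F = true)) := by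
  intro a b F G e he
  simp only [ends, List.mem_cons, List.not_mem_nil, or_false] at he
  rcases he with rfl | rfl | rfl | rfl | rfl | rfl | rfl | rfl | rfl | rfl | rfl | rfl <;>
    simp [okB, grp, ends]

theorem ok_exists : ∀ a b F G : Bool, ∀ g ∈ [0, 5, 8, 12], ∃ e ∈ ends, g = grp e ∧
    okB a b F G e = true := by
  decide +kernel

theorem grp_mem : ∀ e ∈ ends, grp e ∈ [0, 5, 8, 12] := by decide +kernel

theorem tgt_idx {n r i j s : ℕ} {F G : ℕ → ℕ → Bool} (hi : i < n) (hj : j < r) (hs : s < 16) :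
    (cfg n r F G).tgt (idx n i j s) ↔ s ∈ [0, 5, 8, 12] := by
  constructor
  · rintro ⟨y, hy⟩
    obtain ⟨e, -, rfl, h⟩ := (opt_idx hi hj hs).1 hy
    exact grp_mem _ (okB_mem h)
  · intro h
    obtain ⟨e, -, h1, h2⟩ := ok_exists (decide (i = 0)) (decide (i + 1 = n)) (F i j) (G i j) s h
    exact ⟨_, (opt_idx hi hj hs).2 ⟨e, rfl, h1, h2⟩⟩

theorem off_add (i j i' j' : ℤ) : off i' j' = off i j + off (i' - i) (j' - j) := by
  ext <;> simp only [off, Prod.fst_add, Prod.snd_add] <;> ring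

theorem sound {n r r0 : ℕ} {F G : ℕ → ℕ → Bool} (hn : 0 < n) (h0 : 0 < r0) (h1 : r0 ≤ r)
    (hF : ∀ i j, F i j = true → j < r0) (hG : ∀ i j, G i j = true → r0 ≤ j)
    (h : (cfg n r F G).Choice) : ∃ c : ℕ → Bool, ∀ j < r, ∃ i < n,
      (F i j = true ∧ c i = true) ∨ (G i j = true ∧ c i = false) := by
  obtain ⟨f, hf, hnc⟩ := h
  have lt16 : ∀ g ∈ [0, 5, 8, 12], g < 16 := by decide
  have hch : ∀ i j g, ∃ e, i < n → j < r → g ∈ [0, 5, 8, 12] → f (idx n i j g) = idx n i j e ∧
      g = grp e ∧ okB (decide (i = 0)) (decide (i + 1 = n)) (F i j) (G i j) e = true := by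
    intro i j g
    by_cases hh : i < n ∧ j < r ∧ g ∈ [0, 5, 8, 12]
    · obtain ⟨hi, hj, hg⟩ := hh
      obtain ⟨e, he⟩ := (opt_idx hi hj (lt16 g hg)).1 (hf _ ((tgt_idx hi hj (lt16 g hg)).2 hg))
      exact ⟨e, fun _ _ _ => he⟩
    · exact ⟨0, fun a b c => absurd ⟨a, b, c⟩ hh⟩
  choose ch hch using hch
  have nc : ∀ i j g i' j' g', i < n → j < r → g ∈ [0, 5, 8, 12] → i' < n → j' < r →
      g' ∈ [0, 5, 8, 12] → (i ≠ i' ∨ j ≠ j' ∨ g ≠ g') →
      ¬ CrossZ (base g) (base (ch i j g)) (off ((i' : ℤ) - i) ((j' : ℤ) - j) + base g')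
        (off ((i' : ℤ) - i) ((j' : ℤ) - j) + base (ch i' j' g')) := by
    intro i j g i' j' g' hi hj hg hi' hj' hg' hne hc
    obtain ⟨e1, -, e3⟩ := hch i j g hi hj hg
    obtain ⟨e1', -, e3'⟩ := hch i' j' g' hi' hj' hg'
    have l1 := (base_lt _ (okB_mem e3)).2.2.1
    have l2 := (base_lt _ (okB_mem e3')).2.2.1
    refine hnc _ _ ((tgt_idx hi hj (lt16 g hg)).2 hg) ((tgt_idx hi' hj' (lt16 g' hg')).2 hg') ?_ ?_
    · intro e
      have a1 := congrArg (· / 16) e
      have a2 := congrArg (· % 16) e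
      simp only [idx_div (lt16 g hg), idx_div (lt16 g' hg'), idx_mod (lt16 g hg),
        idx_mod (lt16 g' hg')] at a1 a2
      have a3 := congrArg (· / n) a1
      have a4 := congrArg (· % n) a1
      simp only [til_div hi, til_div hi', til_mod hi, til_mod hi'] at a3 a4
      omega
    · rw [e1, e1']
      refine cross_lift (idx_lt hi hj (lt16 g hg)) (idx_lt hi hj l1) (idx_lt hi' hj' (lt16 g' hg'))
        (idx_lt hi' hj' l2) ?_
      rw [Qz_idx hi (lt16 g hg), Qz_idx hi l1, Qz_idx hi' (lt16 g' hg'), Qz_idx hi' l2,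
        off_add i j i' j', add_assoc, add_assoc]
      exact hc.add _
  have nc0 : ∀ i j, i < n → j < r → ∀ p ∈ conf0, ch i j (grp p.1) = p.1 → ch i j (grp p.2) = p.2 →
      False := by
    intro i j hi hj p hp e1 e2
    have k : ∀ p ∈ conf0, grp p.1 ∈ [0, 5, 8, 12] ∧ grp p.2 ∈ [0, 5, 8, 12] ∧ grp p.1 ≠ grp p.2 := by
      decide
    obtain ⟨k1, k2, k3⟩ := k p hp
    refine nc i j _ i j _ hi hj k1 hi hj k2 (Or.inr (Or.inr k3)) ?_
    rw [e1, e2]
    have : off ((i : ℤ) - i) ((j : ℤ) - j) = 0 := by simp [off]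
    rw [this, zero_add, zero_add]
    exact cross0 p hp
  have cO : ∀ i j, i < n → j < r → ch i j 0 = 1 ∨ ch i j 0 = 2 ∨ ch i j 0 = 3 ∨ ch i j 0 = 4 := by
    intro i j hi hj
    obtain ⟨-, e2, e3⟩ := hch i j 0 hi hj (by decide)
    exact (ok_cases _ _ _ _ _ (okB_mem e3) e3).1 e2
  have cU : ∀ i j, i < n → j < r → ch i j 5 = 6 ∨ ch i j 5 = 7 := by
    intro i j hi hj
    obtain ⟨-, e2, e3⟩ := hch i j 5 hi hj (by decide)
    exact (ok_cases _ _ _ _ _ (okB_mem e3) e3).2.1 e2
  have cR : ∀ i j, i < n → j < r → (ch i j 8 = 9 ∧ G i j = false) ∨ (ch i j 8 = 10 ∧ G i j = true) ∨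
      (ch i j 8 = 11 ∧ i + 1 < n) := by
    intro i j hi hj
    obtain ⟨-, e2, e3⟩ := hch i j 8 hi hj (by decide)
    rcases (ok_cases _ _ _ _ _ (okB_mem e3) e3).2.2.1 e2 with a | a | ⟨a, b⟩
    · exact Or.inl a
    · exact Or.inr (Or.inl a)
    · have := of_decide_eq_false b
      exact Or.inr (Or.inr ⟨a, by omega⟩)
  have cP : ∀ i j, i < n → j < r → (ch i j 12 = 13 ∧ i ≠ 0) ∨ (ch i j 12 = 14 ∧ F i j = false) ∨
      (ch i j 12 = 15 ∧ F i j = true) := by
    intro i j hi hj
    obtain ⟨-, e2, e3⟩ := hch i j 12 hi hj (by decide)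
    rcases (ok_cases _ _ _ _ _ (okB_mem e3) e3).2.2.2 e2 with ⟨a, b⟩ | a | a
    · exact Or.inl ⟨a, of_decide_eq_false b⟩
    · exact Or.inr (Or.inl a)
    · exact Or.inr (Or.inr a)
  have ncU : ∀ i j, i < n → j + 1 < r → ch i j 5 = 7 → ch i (j + 1) 0 ≠ 1 ∧ ch i (j + 1) 0 ≠ 4 := by
    intro i j hi hj e
    have k := nc i j 5 i (j + 1) 0 hi (by omega) (by decide) hi hj (by decide) (by omega)
    have : off ((i : ℤ) - i) (((j + 1 : ℕ) : ℤ) - j) = off 0 1 := by simp
    rw [this, e] at k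
    exact ⟨fun a => k (by rw [a]; exact crossU.1), fun a => k (by rw [a]; exact crossU.2)⟩
  have ncR : ∀ i j, i + 1 < n → j < r → ch i j 8 = 11 → ch (i + 1) j 12 ≠ 13 := by
    intro i j hi hj e
    have k := nc i j 8 (i + 1) j 12 (by omega) hj (by decide) hi hj (by decide) (by omega)
    have : off (((i + 1 : ℕ) : ℤ) - i) ((j : ℤ) - j) = off 1 0 := by simp
    rw [this, e] at k
    exact fun a => k (by rw [a]; exact crossR)
  have toU : ∀ i j, i < n → j < r → ch i j 0 = 2 ∨ ch i j 0 = 3 → ch i j 5 = 7 := by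
    intro i j hi hj e
    rcases cU i j hi hj with a | a
    · rcases e with e | e
      · exact (nc0 i j hi hj (2, 6) (by decide) e a).elim
      · exact (nc0 i j hi hj (3, 6) (by decide) e a).elim
    · exact a
  have up1 : ∀ i j, i < n → j + 1 < r → ch i j 5 = 7 → ch i (j + 1) 5 = 7 := by
    intro i j hi hj e
    have := ncU i j hi hj e
    have := cO i (j + 1) hi hj
    exact toU i (j + 1) hi hj (by omega)
  have up : ∀ i j d, i < n → j + d < r → ch i j 5 = 7 → ch i (j + d) 5 = 7 := by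
    intro i j d hi
    induction d with
    | zero => exact fun _ e => e
    | succ d ih => exact fun hj e => up1 i (j + d) hi hj (ih (by omega) e)
  refine ⟨fun i => decide (ch i (r0 - 1) 5 = 7), fun j hj => ?_⟩
  by_contra hcon
  push Not at hcon
  have step : ∀ i, i < n → ch i j 12 ≠ 13 → i + 1 < n ∧ ch (i + 1) j 12 ≠ 13 := by
    intro i hi ha
    have hR : ch i j 8 = 11 ∧ i + 1 < n := by
      obtain ⟨k1, k2⟩ := hcon i hi
      have o1 : ch i j 0 ≠ 1 := by
        intro e
        rcases cP i j hi hj with a | a | a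
        · exact ha a.1
        · exact nc0 i j hi hj (1, 14) (by decide) e a.1
        · exact nc0 i j hi hj (1, 15) (by decide) e a.1
      have o2 : ch i j 0 ≠ 2 := by
        intro e
        rcases cP i j hi hj with a | a | a
        · exact ha a.1
        · exact nc0 i j hi hj (2, 14) (by decide) e a.1
        · have b := toU i j hi hj (Or.inl e)
          have jr := hF i j a.2
          have b2 := up i j (r0 - 1 - j) hi (by omega) b
          rw [show j + (r0 - 1 - j) = r0 - 1 by omega] at b2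
          exact k1 a.2 (decide_eq_true b2)
      rcases cR i j hi hj with a | a | a
      · rcases cO i j hi hj with e | e | e | e
        · exact absurd e o1
        · exact absurd e o2
        · exact (nc0 i j hi hj (3, 9) (by decide) e a.1).elim
        · exact (nc0 i j hi hj (4, 9) (by decide) e a.1).elim
      · rcases cO i j hi hj with e | e | e | e
        · exact absurd e o1
        · exact absurd e o2
        · exact (nc0 i j hi hj (3, 10) (by decide) e a.1).elim
        · exfalso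
          have jr := hG i j a.2
          apply k2 a.2
          rw [decide_eq_false_iff_not]
          intro b
          have b2 := up i (r0 - 1) (j - r0) hi (by omega) b
          have b3 := (ncU i _ hi (by omega) b2).2
          rw [show r0 - 1 + (j - r0) + 1 = j by omega] at b3
          exact b3 e
      · exact a
    exact ⟨hR.2, ncR i j hR.2 hj hR.1⟩
  have all : ∀ i, i < n ∧ ch i j 12 ≠ 13 := by
    intro i
    induction i with
    | zero =>
      refine ⟨hn, fun e => ?_⟩
      rcases cP 0 j hn hj with a | a | a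
      · exact a.2 rfl
      · omega
      · omega
    | succ i ih => exact step i ih.1 ih.2
  exact lt_irrefl _ (all n).1

/-- the chosen option -/
def chos (a F G c : Bool) (g : ℕ) : ℕ :=
  if g = 0 then (if a then (if c then (if F then 2 else 3) else 4) else (if c then 2 else 1))
  else if g = 5 then (if c then 7 else 6)
  else if g = 8 then (if a && !((F && c) || (G && !c)) then 11 else if G then 10 else 9)
  else (if a then (if F then 15 else 14) else 13)

theorem chos_ok : ∀ a F G c first last : Bool, (first = true → a = true) →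
    (last = true → (a && !((F && c) || (G && !c))) = false) → ∀ g ∈ [0, 5, 8, 12],
    g = grp (chos a F G c g) ∧ okB first last F G (chos a F G c g) = true := by
  decide +kernel

theorem chos_conf0 : ∀ a F G c : Bool, ∀ g ∈ [0, 5, 8, 12], ∀ g' ∈ [0, 5, 8, 12],
    (chos a F G c g, chos a F G c g') ∉ conf0 := by
  decide +kernel

theorem chos_7 : ∀ a F G c : Bool, ∀ g ∈ [0, 5, 8, 12], (chos a F G c g = 7 → c = true) ∧
    (chos a F G c g = 1 → c = false) ∧ (chos a F G c g = 4 → c = false) ∧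
    (chos a F G c g = 11 → (a && !((F && c) || (G && !c))) = true) ∧
    (chos a F G c g = 13 → a = false) := by
  decide +kernel

def pres (F G : ℕ → ℕ → Bool) (c : ℕ → Bool) (j : ℕ) : ℕ → Bool
  | 0 => true
  | i + 1 => pres F G c j i && !((F i j && c i) || (G i j && !c i))

theorem pres_false {F G : ℕ → ℕ → Bool} {c : ℕ → Bool} {j i n : ℕ} (hi : i < n)
    (h : (F i j = true ∧ c i = true) ∨ (G i j = true ∧ c i = false)) : pres F G c j n = false := by
  induction n with
  | zero => omega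
  | succ n ih =>
    rcases Nat.lt_succ_iff_lt_or_eq.1 hi with a | rfl
    · simp [pres, ih a]
    · rcases h with ⟨a, b⟩ | ⟨a, b⟩ <;> simp [pres, a, b]

theorem far_sep {di dj : ℤ} {a b c d : ℕ} (ha : a < 16) (hb : b < 16) (hc : c < 16) (hd : d < 16)
    (h : 2 ≤ di ∨ di ≤ -2 ∨ 2 ≤ dj ∨ dj ≤ -2) :
    Sep (base a) (base b) (off di dj + base c) (off di dj + base d) := by
  have k1 := base_bd a ha
  have k2 := base_bd b hb
  have k3 := base_bd c hc
  have k4 := base_bd d hd
  rcases h with h | h | h | h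
  · refine ⟨(1, -1), ⟨by simp, by simp⟩, ?_, ?_, ?_, ?_⟩ <;>
      simp only [dot, off, Prod.fst_add, Prod.snd_add] <;> omega
  · refine ⟨(-1, 1), ⟨by simp, by simp⟩, ?_, ?_, ?_, ?_⟩ <;>
      simp only [dot, off, Prod.fst_add, Prod.snd_add] <;> omega
  · refine ⟨(0, 1), ⟨by simp, by simp⟩, ?_, ?_, ?_, ?_⟩ <;>
      simp only [dot, off, Prod.fst_add, Prod.snd_add] <;> omega
  · refine ⟨(0, -1), ⟨by simp, by simp⟩, ?_, ?_, ?_, ?_⟩ <;>
      simp only [dot, off, Prod.fst_add, Prod.snd_add] <;> omega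

theorem complete {n r : ℕ} {F G : ℕ → ℕ → Bool} {c : ℕ → Bool}
    (h : ∀ j < r, ∃ i < n, (F i j = true ∧ c i = true) ∨ (G i j = true ∧ c i = false)) :
    (cfg n r F G).Choice := by
  let ch : ℕ → ℕ → ℕ → ℕ := fun i j g => chos (pres F G c j i) (F i j) (G i j) (c i) g
  let f : ℕ → ℕ := fun t => idx n (t / 16 % n) (t / 16 / n) (ch (t / 16 % n) (t / 16 / n) (t % 16))
  have hf : ∀ i j g, i < n → g < 16 → f (idx n i j g) = idx n i j (ch i j g) := by
    intro i j g hi hg
    simp only [f, idx_div hg, idx_mod hg, til_mod hi, til_div hi]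
  have hok : ∀ i j g, i < n → j < r → g ∈ [0, 5, 8, 12] → g = grp (ch i j g) ∧
      okB (decide (i = 0)) (decide (i + 1 = n)) (F i j) (G i j) (ch i j g) = true := by
    intro i j g hi hj hg
    refine chos_ok _ _ _ _ _ _ ?_ ?_ g hg
    · intro e
      rw [of_decide_eq_true e]; rfl
    · intro e
      obtain ⟨i', hi', k⟩ := h j hj
      have := pres_false hi' k
      rw [← of_decide_eq_true e] at this
      exact this
  have htg : ∀ t, (cfg n r F G).tgt t → ∃ i j g, i < n ∧ j < r ∧ g < 16 ∧ g ∈ [0, 5, 8, 12] ∧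
      t = idx n i j g := by
    intro t ht
    have htN : t < 16 * (n * r) := by
      obtain ⟨y, hy⟩ := ht
      obtain ⟨h1, h2, h3, h4⟩ := optB_iff.1 hy
      have := (base_lt _ (okB_mem h4)).2.1
      omega
    obtain ⟨i, j, g, hi, hj, hg, rfl⟩ := exists_idx htN
    exact ⟨i, j, g, hi, hj, hg, (tgt_idx hi hj hg).1 ht, rfl⟩
  refine ⟨f, fun t ht => ?_, fun t t' ht ht' tt => ?_⟩
  · obtain ⟨i, j, g, hi, hj, hg, hg', rfl⟩ := htg t ht
    exact (opt_idx hi hj hg).2 ⟨_, hf i j g hi hg, hok i j g hi hj hg'⟩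
  obtain ⟨i, j, g, hi, hj, hg, m, rfl⟩ := htg t ht
  obtain ⟨i', j', g', hi', hj', hg', m', rfl⟩ := htg t' ht'
  obtain ⟨e1, e2⟩ := hok i j g hi hj m
  obtain ⟨e1', e2'⟩ := hok i' j' g' hi' hj' m'
  have l1 := (base_lt _ (okB_mem e2)).2.2.1
  have l2 := (base_lt _ (okB_mem e2')).2.2.1
  rw [hf i j g hi hg, hf i' j' g' hi' hg']
  refine sep_lift (idx_lt hi hj hg) (idx_lt hi hj l1) (idx_lt hi' hj' hg') (idx_lt hi' hj' l2) ?_
  rw [Qz_idx hi hg, Qz_idx hi l1, Qz_idx hi' hg', Qz_idx hi' l2, off_add i j i' j', add_assoc,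
    add_assoc]
  refine Sep.add ?_ _
  by_cases far : 2 ≤ (i' : ℤ) - i ∨ (i' : ℤ) - i ≤ -2 ∨ 2 ≤ (j' : ℤ) - j ∨ (j' : ℤ) - j ≤ -2
  · exact far_sep hg l1 hg' l2 far
  rcases near_ok ((i' : ℤ) - i) (by simp only [List.mem_cons, List.not_mem_nil]; omega)
    ((j' : ℤ) - j) (by simp only [List.mem_cons, List.not_mem_nil]; omega) _ (okB_mem e2) _
    (okB_mem e2') with ⟨a1, a2, a3⟩ | a | a
  · exfalso
    apply tt
    rw [show i' = i by omega, show j' = j by omega, e1, e1', a3]
  · exfalso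
    obtain ⟨p1, p2, p3, p4, p5⟩ := chos_7 (pres F G c j i) (F i j) (G i j) (c i) g m
    obtain ⟨q1, q2, q3, q4, q5⟩ := chos_7 (pres F G c j' i') (F i' j') (G i' j') (c i') g' m'
    simp only [conf, Bool.or_eq_true, Bool.and_eq_true, decide_eq_true_eq] at a
    rcases a with (((⟨⟨a1, a2⟩, a3⟩ | ⟨⟨⟨a1, a2⟩, a3⟩, a4⟩) | ⟨⟨⟨a1, a2⟩, a3⟩, a4⟩) |
      ⟨⟨⟨a1, a2⟩, a3⟩, a4⟩) | ⟨⟨⟨a1, a2⟩, a3⟩, a4⟩
    · obtain rfl : i' = i := by omega
      obtain rfl : j' = j := by omega
      rcases a3 with a3 | a3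
      · exact chos_conf0 _ _ _ _ g m g' m' a3
      · exact chos_conf0 _ _ _ _ g' m' g m a3
    · obtain rfl : i' = i := by omega
      have b := p1 a3
      rcases a4 with a4 | a4
      · rw [q2 a4] at b; exact absurd b (by simp)
      · rw [q3 a4] at b; exact absurd b (by simp)
    · obtain rfl : i' = i := by omega
      have b := q1 a3
      rcases a4 with a4 | a4
      · rw [p2 a4] at b; exact absurd b (by simp)
      · rw [p3 a4] at b; exact absurd b (by simp)
    · obtain rfl : i' = i + 1 := by omega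
      obtain rfl : j' = j := by omega
      have b := p4 a3
      have b' := q5 a4
      simp only [pres] at b'
      rw [b] at b'
      exact absurd b' (by simp)
    · obtain rfl : i = i' + 1 := by omega
      obtain rfl : j' = j := by omega
      have b := q4 a3
      have b' := p5 a4
      simp only [pres] at b'
      rw [b] at b'
      exact absurd b' (by simp)
  · have := sep_of_sepB a
    rwa [← e1, ← e1'] at this

end Pool.Agent.H579Z.Area
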