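import Pool.Agent.H579Z.Area.Logic
import Pool.Agent.NPC.Sat2
import Pool.Agent.H671R2.PolyAuto
import Pool.Agent.H687R2.IntPoly

set_option autoImplicit false

/-! The reduction from 3SAT to the max-min area triangulation problem. -/

namespace Pool.Agent.H579Z.Area

open Pool.Agent.NPC

abbrev Cl : Type := Lit ℕ × Lit ℕ × Lit ℕ

def col (l : Lit ℕ) : ℕ := 2 * l.2 + (bif l.1 then 1 else 0)

def FF (φ : List Cl) (i j : ℕ) : Bool := decide (j < 3 * φ.length) && decide (i / 2 = j)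

def GG (φ : List Cl) (i j : ℕ) : Bool :=
  φ.zipIdx.any fun p => decide (p.2 + 3 * φ.length = j) &&
    (decide (col p.1.1 = i) || decide (col p.1.2.1 = i) || decide (col p.1.2.2 = i))

theorem GG_iff {φ : List Cl} {i j : ℕ} : GG φ i j = true ↔ ∃ k, ∃ h : k < φ.length,
    k + 3 * φ.length = j ∧ (col φ[k].1 = i ∨ col φ[k].2.1 = i ∨ col φ[k].2.2 = i) := by
  simp only [GG, List.any_eq_true, Bool.and_eq_true, Bool.or_eq_true, decide_eq_true_eq, or_assoc]
  constructor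
  · rintro ⟨⟨c, k⟩, h1, h2, h3⟩
    obtain ⟨h4, h5⟩ := List.mem_zipIdx' h1
    exact ⟨k, h4, h2, by rw [← h5]; exact h3⟩
  · rintro ⟨k, h, h2, h3⟩
    exact ⟨(φ[k], k), List.mem_zipIdx_iff_getElem?.2 (by simp [h]), h2, h3⟩

def cf (φ : List Cl) : Cfg := cfg (6 * φ.length) (4 * φ.length) (FF φ) (GG φ)

theorem sat_iff {φ : List Cl} (hb : Bounded3 φ) (hne : φ ≠ []) : SAT3 φ ↔ (cf φ).Choice := by
  have hm : 0 < φ.length := List.length_pos_of_ne_nil hne
  constructor
  · rintro ⟨τ, hτ⟩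
    refine complete (c := fun i => τ (i / 2) != decide (i % 2 = 1)) fun j hj => ?_
    by_cases h : j < 3 * φ.length
    · cases e : τ j
      · refine ⟨2 * j + 1, by omega, Or.inl ⟨?_, ?_⟩⟩
        · simp only [FF, Bool.and_eq_true, decide_eq_true_eq]; omega
        · rw [show (2 * j + 1) / 2 = j by omega, e, show (2 * j + 1) % 2 = 1 by omega]; rfl
      · refine ⟨2 * j, by omega, Or.inl ⟨?_, ?_⟩⟩
        · simp only [FF, Bool.and_eq_true, decide_eq_true_eq]; omega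
        · rw [show (2 * j) / 2 = j by omega, e, show (2 * j) % 2 = 0 by omega]; rfl
    · have hk : j - 3 * φ.length < φ.length := by omega
      have key : ∀ l : Lit ℕ, l.2 < 3 * φ.length → τ l.2 = l.1 → col l < 6 * φ.length ∧
          (τ (col l / 2) != decide (col l % 2 = 1)) = false := by
        rintro ⟨b, v⟩ h1 h2
        simp only at h1 h2
        cases b
        · have e : col (false, v) = 2 * v := rfl
          rw [e, show (2 * v) / 2 = v by omega, h2, show (2 * v) % 2 = 0 by omega]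
          exact ⟨by omega, rfl⟩
        · have e : col (true, v) = 2 * v + 1 := rfl
          rw [e, show (2 * v + 1) / 2 = v by omega, h2, show (2 * v + 1) % 2 = 1 by omega]
          exact ⟨by omega, rfl⟩
      obtain ⟨b1, b2, b3⟩ := hb _ (List.getElem_mem hk)
      rcases hτ _ (List.getElem_mem hk) with e | e | e
      · exact ⟨_, (key _ b1 e).1, Or.inr ⟨GG_iff.2 ⟨_, hk, by omega, Or.inl rfl⟩, (key _ b1 e).2⟩⟩
      · exact ⟨_, (key _ b2 e).1, Or.inr ⟨GG_iff.2 ⟨_, hk, by omega, Or.inr (Or.inl rfl)⟩,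
          (key _ b2 e).2⟩⟩
      · exact ⟨_, (key _ b3 e).1, Or.inr ⟨GG_iff.2 ⟨_, hk, by omega, Or.inr (Or.inr rfl)⟩,
          (key _ b3 e).2⟩⟩
  · intro h
    have hF : ∀ i j, FF φ i j = true → j < 3 * φ.length ∧ i / 2 = j := by
      intro i j h
      simpa only [FF, Bool.and_eq_true, decide_eq_true_eq] using h
    have hG : ∀ i j, GG φ i j = true → 3 * φ.length ≤ j := by
      intro i j h
      obtain ⟨k, -, h, -⟩ := GG_iff.1 h
      omega
    obtain ⟨c, hc⟩ := sound (r0 := 3 * φ.length) (by omega) (by omega) (by omega)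
      (fun i j h => (hF i j h).1) hG h
    refine ⟨fun v => !c (2 * v + 1), fun cl hcl => ?_⟩
    obtain ⟨k, hk, rfl⟩ := List.getElem_of_mem hcl
    have key : ∀ l : Lit ℕ, l.2 < 3 * φ.length → c (col l) = false → (!c (2 * l.2 + 1)) = l.1 := by
      rintro ⟨b, v⟩ h1 h2
      simp only at h1 ⊢
      cases b
      · simp only [col, cond_false, Nat.add_zero] at h2
        obtain ⟨i, -, ⟨a1, a2⟩ | ⟨a1, -⟩⟩ := hc v (by omega)
        · have := (hF _ _ a1).2
          have : i = 2 * v ∨ i = 2 * v + 1 := by omega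
          rcases this with rfl | rfl
          · rw [h2] at a2; exact absurd a2 (by simp)
          · rw [a2]; rfl
        · have := hG _ _ a1
          omega
      · simp only [col, cond_true] at h2
        rw [h2]; rfl
    obtain ⟨b1, b2, b3⟩ := hb _ hcl
    obtain ⟨i, -, ⟨a1, -⟩ | ⟨a1, a2⟩⟩ := hc (k + 3 * φ.length) (by omega)
    · have := (hF _ _ a1).1
      omega
    · obtain ⟨k', hk', e, h3⟩ := GG_iff.1 a1
      obtain rfl : k' = k := by omega
      rcases h3 with rfl | rfl | rfl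
      · exact Or.inl (key _ b1 a2)
      · exact Or.inr (Or.inl (key _ b2 a2))
      · exact Or.inr (Or.inr (key _ b3 a2))

def tgB (i : ℕ) : Bool := decide (i % 16 ∈ [0, 5, 8, 12])

def NN (φ : List Cl) : ℕ := 16 * (6 * φ.length * (4 * φ.length))

def useB (φ : List Cl) (i k : ℕ) : Bool :=
  decide (((cf φ).P k).1 < ((cf φ).P i).1) || optB (6 * φ.length) (NN φ) (FF φ) (GG φ) i k

def clus (φ : List Cl) (i : ℕ) : List Z2 :=
  bif tgB i then (cf φ).pp i :: (cf φ).qq i ::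
    ((List.range (NN φ)).filter (useB φ i)).map ((cf φ).sh i) else [(cf φ).en i]

def ptsZ (φ : List Cl) : List Z2 := (List.range (NN φ)).flatMap (clus φ)

def red (φ : List Cl) : List (ℚ × ℚ) × ℚ :=
  ((ptsZ φ).map fun x => ((x.1 : ℚ), (x.2 : ℚ)), (Az (NN φ) : ℚ))

theorem tgB_iff {φ : List Cl} {i : ℕ} (hi : i < NN φ) : tgB i = true ↔ (cf φ).tgt i := by
  obtain ⟨a, b, s, ha, hb, hs, rfl⟩ := exists_idx hi
  rw [cf, tgt_idx ha hb hs, tgB, idx_mod hs, decide_eq_true_eq]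

theorem useB_iff {φ : List Cl} {i k : ℕ} : useB φ i k = true ↔ (cf φ).use i k := by
  simp only [useB, Bool.or_eq_true, decide_eq_true_eq]
  rfl

theorem mem_ptsZ {φ : List Cl} {x : Z2} : x ∈ ptsZ φ ↔ x ∈ (cf φ).Sz := by
  simp only [ptsZ, List.mem_flatMap, List.mem_range]
  refine exists_congr fun i => and_congr_right fun hi => ?_
  by_cases ht : tgB i = true
  · have ht' := (tgB_iff hi).1 ht
    simp only [clus, ht, cond_true, List.mem_cons, List.mem_map, List.mem_filter, List.mem_range,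
      useB_iff]
    constructor
    · rintro (rfl | rfl | ⟨k, ⟨hk, hu⟩, rfl⟩)
      · exact ⟨_, Or.inr ⟨ht', Or.inl rfl⟩, rfl⟩
      · exact ⟨_, Or.inr ⟨ht', Or.inr (Or.inl rfl)⟩, rfl⟩
      · exact ⟨_, Or.inr ⟨ht', Or.inr (Or.inr ⟨k, hk, hu, rfl⟩)⟩, rfl⟩
    · rintro ⟨o, ⟨a, -⟩ | ⟨-, rfl | rfl | ⟨k, hk, hu, rfl⟩⟩, rfl⟩
      · exact absurd ht' a
      · exact Or.inl rfl
      · exact Or.inr (Or.inl rfl)
      · exact Or.inr (Or.inr ⟨k, ⟨hk, hu⟩, rfl⟩)
  · have ht' : ¬ (cf φ).tgt i := fun a => ht ((tgB_iff hi).2 a)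
    simp only [clus, Bool.eq_false_iff.2 ht, cond_false, List.mem_singleton]
    constructor
    · rintro rfl
      exact ⟨_, Or.inl ⟨ht', rfl⟩, rfl⟩
    · rintro ⟨o, ⟨-, rfl⟩ | ⟨a, -⟩, rfl⟩
      · rfl
      · exact absurd a ht'

theorem pts_red (φ : List Cl) : pts (red φ).1 = (cf φ).SS := by
  ext x
  simp only [pts, red, List.mem_map, Set.mem_ofPred_eq, Cfg.SS, Set.mem_image, mem_ptsZ]
  constructor
  · rintro ⟨_, ⟨a, ha, rfl⟩, rfl⟩
    exact ⟨a, ha, by simp [emb]⟩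
  · rintro ⟨a, ha, rfl⟩
    exact ⟨_, ⟨a, ha, rfl⟩, by simp [emb]⟩

theorem cf_good {φ : List Cl} (hne : φ ≠ []) : (cf φ).Good := by
  have hm : 0 < φ.length := List.length_pos_of_ne_nil hne
  exact cfg_good (by omega) (by omega) _ _

theorem red_iff {φ : List Cl} (hb : Bounded3 φ) (hne : φ ≠ []) : SAT3 φ ↔ MaxMinArea (red φ) := by
  rw [sat_iff hb hne, (cf_good hne).main, MaxMinArea, pts_red]
  have : (((cf φ).Θ : ℤ) : ℝ) / 2 = (((red φ).2 : ℚ) : ℝ) := by
    change (((2 * Az (NN φ) : ℤ)) : ℝ) / 2 = (((Az (NN φ) : ℤ) : ℚ) : ℝ)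
    push_cast
    ring
  rw [this]

theorem red_not_collinear {φ : List Cl} (hne : φ ≠ []) : ¬ Collinear ℝ (pts (red φ).1) := by
  have hm : 0 < φ.length := List.length_pos_of_ne_nil hne
  have hg := cf_good hne
  have ht : (cf φ).tgt (idx (6 * φ.length) 0 0 0) :=
    (tgt_idx (by omega) (by omega) (by norm_num)).2 (by decide)
  obtain ⟨y, hy⟩ := id ht
  rw [pts_red]
  intro hc
  have hq : emb ((cf φ).qq (idx (6 * φ.length) 0 0 0)) ∈ (cf φ).SS := ⟨_, hg.qq_mem ht, rfl⟩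
  rw [collinear_iff_of_mem hq] at hc
  obtain ⟨v, hv⟩ := hc
  obtain ⟨a, ha⟩ := hv _ ⟨_, hg.pp_mem ht, rfl⟩
  obtain ⟨b, hb⟩ := hv _ ⟨_, hg.sh_mem hy, rfl⟩
  have h1 := (hg.sh_cross hy).1
  have h2 : det (emb ((cf φ).qq (idx (6 * φ.length) 0 0 0)))
      (emb ((cf φ).pp (idx (6 * φ.length) 0 0 0))) (emb ((cf φ).sh (idx (6 * φ.length) 0 0 0) y)) = 0 := by
    rw [ha, hb]
    simp only [det, vadd_eq_add, Prod.fst_add, Prod.snd_add, Prod.smul_fst, Prod.smul_snd,
      smul_eq_mul]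
    ring
  rw [det_emb, Int.cast_eq_zero] at h2
  rw [h2, zero_mul] at h1
  exact lt_irrefl _ h1

/-! ### Polynomial time -/

section

variable {α : Type} [TEnc α]

attribute [fun_prop] Poly.iadd Poly.isub Poly.imul Poly.ineg Poly.ilt

@[fun_prop] theorem poly_zpow {f : α → ℤ} (hf : Poly f) (k : ℕ) : Poly (fun a => f a ^ k) :=
  Poly.ipow hf (UPoly.const k)

@[fun_prop] theorem poly_add2 {u v : α → Z2} (hu : Poly u) (hv : Poly v) :
    Poly (fun a => u a + v a) :=
  Poly.pair (Poly.iadd (Poly.fst hu) (Poly.fst hv)) (Poly.iadd (Poly.snd hu) (Poly.snd hv))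

@[fun_prop] theorem poly_sub2 {u v : α → Z2} (hu : Poly u) (hv : Poly v) :
    Poly (fun a => u a - v a) :=
  Poly.pair (Poly.isub (Poly.fst hu) (Poly.fst hv)) (Poly.isub (Poly.snd hu) (Poly.snd hv))

@[fun_prop] theorem poly_smul2 {c : α → ℤ} {v : α → Z2} (hc : Poly c) (hv : Poly v) :
    Poly (fun a => c a • v a) :=
  Poly.pair (Poly.imul hc (Poly.fst hv)) (Poly.imul hc (Poly.snd hv))

@[fun_prop] theorem poly_rat {z : α → ℤ} (hz : Poly z) : Poly (fun a => ((z a : ℤ) : ℚ)) := by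
  have h : Poly (fun a => (z a, (1 : ℕ))) := Poly.pair hz (NPC.Poly.const 1)
  have h2 : Poly (fun a => (((z a : ℤ) : ℚ).num, ((z a : ℤ) : ℚ).den)) := h.congr fun a => by simp
  exact h2

@[fun_prop] theorem poly_base {s : α → ℕ} (hs : Poly s) : Poly (fun a => base (s a)) :=
  Poly.getD (NPC.Poly.const _) hs (NPC.Poly.const _)

@[fun_prop] theorem poly_off {i j : α → ℤ} (hi : Poly i) (hj : Poly j) :
    Poly (fun a => off (i a) (j a)) := by unfold off; fun_prop

@[fun_prop] theorem poly_Qz {n k : α → ℕ} (hn : Poly n) (hk : Poly k) :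
    Poly (fun a => Qz (n a) (k a)) := by unfold Qz; fun_prop

@[fun_prop] theorem poly_Lq {n : α → ℕ} (hn : Poly n) : Poly (fun a => Lq (n a)) := by
  unfold Lq; fun_prop

@[fun_prop] theorem poly_Pz {n N k : α → ℕ} (hn : Poly n) (hN : Poly N) (hk : Poly k) :
    Poly (fun a => Pz (n a) (N a) (k a)) := by unfold Pz; fun_prop

@[fun_prop] theorem poly_Mz {n : α → ℕ} (hn : Poly n) : Poly (fun a => Mz (n a)) := by
  unfold Mz; fun_prop

@[fun_prop] theorem poly_Lz {n : α → ℕ} (hn : Poly n) : Poly (fun a => Lz (n a)) := by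
  unfold Lz; fun_prop

@[fun_prop] theorem poly_grp {e : α → ℕ} (he : Poly e) : Poly (fun a => grp (e a)) := by
  unfold grp
  exact Poly.ite (by fun_prop) (by fun_prop) (Poly.ite (by fun_prop) (by fun_prop)
    (Poly.ite (by fun_prop) (by fun_prop) (by fun_prop)))

@[fun_prop] theorem poly_okB {a b c d : α → Bool} {e : α → ℕ} (ha : Poly a) (hb : Poly b)
    (hc : Poly c) (hd : Poly d) (he : Poly e) :
    Poly (fun x => okB (a x) (b x) (c x) (d x) (e x)) := by unfold okB; fun_prop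

@[fun_prop] theorem poly_col {l : α → Lit ℕ} (hl : Poly l) : Poly (fun a => col (l a)) := by
  unfold col; fun_prop

@[fun_prop] theorem poly_FF {φ : α → List Cl} {i j : α → ℕ} (hφ : Poly φ) (hi : Poly i)
    (hj : Poly j) : Poly (fun a => FF (φ a) (i a) (j a)) := by unfold FF; fun_prop

@[fun_prop] theorem poly_GG {φ : α → List Cl} {i j : α → ℕ} (hφ : Poly φ) (hi : Poly i)
    (hj : Poly j) : Poly (fun a => GG (φ a) (i a) (j a)) := by unfold GG; fun_prop

theorem upoly_NN {φ : α → List Cl} (hφ : Poly φ) : UPoly (fun a => NN (φ a)) :=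
  (UPoly.const 16).mul (((UPoly.const 6).mul (UPoly.length hφ)).mul
    ((UPoly.const 4).mul (UPoly.length hφ)))

@[fun_prop] theorem poly_NN {φ : α → List Cl} (hφ : Poly φ) : Poly (fun a => NN (φ a)) :=
  (upoly_NN hφ).toPoly

theorem poly_G {φ : α → List Cl} (hφ : Poly φ) : Poly (fun a => Lz (NN (φ a)) ^ NN (φ a)) :=
  Poly.ipow (by fun_prop) (upoly_NN hφ)

@[fun_prop] theorem poly_c0 {φ : α → List Cl} (hφ : Poly φ) : Poly (fun a => c0z (NN (φ a))) :=
  Poly.iadd (Poly.imul (Poly.imul (NPC.Poly.const _) (poly_G hφ)) (by fun_prop)) (NPC.Poly.const _)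

theorem poly_C {φ : α → List Cl} (hφ : Poly φ) : Poly (fun a => Cz (NN (φ a))) :=
  Poly.imul (poly_c0 hφ) (poly_G hφ)

theorem poly_A {φ : α → List Cl} (hφ : Poly φ) : Poly (fun a => Az (NN (φ a))) :=
  Poly.iadd (Poly.imul (poly_C hφ) (by fun_prop)) (NPC.Poly.const _)

theorem poly_B {φ : α → List Cl} (hφ : Poly φ) : Poly (fun a => (cf (φ a)).B) := by
  have h1 := poly_C hφ
  have h2 := poly_A hφ
  have h3 : Poly (fun a => Mz (NN (φ a))) := by fun_prop
  have h4 := Poly.imul h1 h3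
  exact Poly.iadd (Poly.iadd (Poly.iadd (Poly.iadd (Poly.imul (Poly.imul (NPC.Poly.const 8) h3) h4)
    (Poly.imul (NPC.Poly.const 8) (poly_zpow h4 2))) (Poly.imul (NPC.Poly.const 2) h2)) h3)
    (Poly.imul (NPC.Poly.const 2) h4)

theorem poly_P {φ : α → List Cl} {k : α → ℕ} (hφ : Poly φ) (hk : Poly k) :
    Poly (fun a => (cf (φ a)).P (k a)) :=
  poly_Pz (n := fun a => 6 * (φ a).length) (N := fun a => NN (φ a)) (by fun_prop) (poly_NN hφ) hk

theorem poly_cg {φ : α → List Cl} {k : α → ℕ} (hφ : Poly φ) (hk : Poly k) :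
    Poly (fun a => (cf (φ a)).c0 * (cf (φ a)).g (k a)) :=
  Poly.imul (poly_c0 hφ) (Poly.ipow (b := fun a => Lz (NN (φ a))) (by fun_prop)
    (UPoly.of_le (Poly.min hk (poly_NN hφ)) (upoly_NN hφ) fun _ => min_le_right _ _))

theorem poly_sh {φ : α → List Cl} {i k : α → ℕ} (hφ : Poly φ) (hi : Poly i) (hk : Poly k) :
    Poly (fun a => (cf (φ a)).sh (i a) (k a)) := by
  have h1 := poly_P hφ hi
  have h2 := poly_P hφ hk
  exact poly_add2 (poly_smul2 (poly_B hφ) h1) (poly_smul2 (poly_cg hφ hk)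
    (Poly.ite (Poly.ilt (Poly.fst h2) (Poly.fst h1)) (poly_sub2 h2 h1) (poly_sub2 h1 h2)))

theorem poly_useB {φ : α → List Cl} {i k : α → ℕ} (hφ : Poly φ) (hi : Poly i) (hk : Poly k) :
    Poly (fun a => useB (φ a) (i a) (k a)) := by
  refine Poly.or (Poly.ilt (Poly.fst (poly_P hφ hk)) (Poly.fst (poly_P hφ hi))) ?_
  unfold optB
  fun_prop

theorem poly_clus {φ : α → List Cl} {i : α → ℕ} (hφ : Poly φ) (hi : Poly i) :
    Poly (fun a => clus (φ a) (i a)) := by
  have h1 := poly_smul2 (poly_B hφ) (poly_P hφ hi)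
  have g1 : Poly (fun p : α × ℕ => φ p.1) := hφ.comp (Poly.fst Poly.id)
  have g2 : Poly (fun p : α × ℕ => i p.1) := hi.comp (Poly.fst Poly.id)
  have g3 : Poly (fun p : α × ℕ => p.2) := Poly.snd Poly.id
  refine Poly.cond (by unfold tgB; fun_prop) (Poly.cons (poly_add2 h1 (NPC.Poly.const _))
    (Poly.cons (poly_add2 h1 (NPC.Poly.const _)) ?_))
    (Poly.cons (poly_add2 h1 (NPC.Poly.const _)) (NPC.Poly.const _))
  exact NPC.Poly.map (Poly.filter (upoly_NN hφ).range (poly_useB g1 g2 g3)) (poly_sh g1 g2 g3)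

end

theorem poly_red : Poly red := by
  refine Poly.pair (NPC.Poly.map (F := fun _ (x : Z2) => ((x.1 : ℚ), (x.2 : ℚ))) ?_ (by fun_prop))
    (poly_rat (poly_A Poly.id))
  exact Poly.flatMap (upoly_NN Poly.id).range (poly_clus (Poly.fst Poly.id) (Poly.snd Poly.id))

theorem main (L : Set (List Bool)) (hL : InNP L) :
    ∃ f : List Bool → List (ℚ × ℚ) × ℚ, PolyTime (fun x => bits (f x)) ∧
      ∀ x, ¬ Collinear ℝ (pts (f x).1) ∧ (x ∈ L ↔ MaxMinArea (f x)) := by
  obtain ⟨g, hg, h1, h2⟩ := hardPr_SAT3b _ hL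
  exact ⟨fun x => red (g x), PC.toPolyTime_bits poly_red g hg, fun x =>
    ⟨red_not_collinear (h1 x).2.2, (h2 x).trans (red_iff (h1 x).2.1 (h1 x).2.2)⟩⟩

end Pool.Agent.H579Z.Area
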