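import Pool.Agent.H579Z.Area.Clus2

set_option autoImplicit false

/-! The grid of tiles. -/

namespace Pool.Agent.H579Z.Area

/-- positions of the sixteen sites of a tile -/
def baseL : List Z2 := [(0, 0), (60, 30), (24, 8), (21, 3), (29, -1), (14, 6), (15, 1), (162, 133),
  (19, 5), (20, -1), (20, 2), (105, 64), (-5, 50), (0, 62), (7, 2), (7, 3)]

def base (s : ℕ) : Z2 := baseL.getD s (0, 0)

def off (i j : ℤ) : Z2 := (100 * i + 100 * j, 100 * j)

def grp (e : ℕ) : ℕ := if e < 5 then 0 else if e < 8 then 5 else if e < 12 then 8 else 12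

def ends : List ℕ := [1, 2, 3, 4, 6, 7, 9, 10, 11, 13, 14, 15]

def dot (n a : Z2) : ℤ := n.1 * a.1 + n.2 * a.2

def Sep (a b c d : Z2) : Prop :=
  ∃ n, Bd 200 n ∧ dot n a < dot n c ∧ dot n a < dot n d ∧ dot n b < dot n c ∧ dot n b < dot n d

def sepN (n a b c d : Z2) : Bool :=
  decide (|n.1| ≤ 200) && decide (|n.2| ≤ 200) && decide (dot n a < dot n c) &&
    decide (dot n a < dot n d) && decide (dot n b < dot n c) && decide (dot n b < dot n d)

def sepB (a b c d : Z2) : Bool :=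
  [(1, -1), (-1, 1), (0, 1), (0, -1), (b.2 - a.2, a.1 - b.1), (a.2 - b.2, b.1 - a.1),
    (d.2 - c.2, c.1 - d.1), (c.2 - d.2, d.1 - c.1)].any fun n => sepN n a b c d

theorem sep_of_sepB {a b c d : Z2} (h : sepB a b c d = true) : Sep a b c d := by
  obtain ⟨n, -, hn⟩ := List.any_eq_true.1 h
  simp only [sepN, Bool.and_eq_true, decide_eq_true_eq] at hn
  exact ⟨n, ⟨hn.1.1.1.1.1, hn.1.1.1.1.2⟩, hn.1.1.1.2, hn.1.1.2, hn.1.2, hn.2⟩

theorem Sep.add {a b c d : Z2} (h : Sep a b c d) (v : Z2) : Sep (v + a) (v + b) (v + c) (v + d) := by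
  obtain ⟨n, h0, h1, h2, h3, h4⟩ := h
  refine ⟨n, h0, ?_, ?_, ?_, ?_⟩ <;> simp only [dot, Prod.fst_add, Prod.snd_add] at * <;> linarith

/-- conflicts inside a tile -/
def conf0 : List (ℕ × ℕ) := [(1, 7), (1, 11), (1, 14), (1, 15), (2, 6), (2, 11), (2, 14), (3, 6),
  (3, 9), (3, 10), (4, 9)]

def conf (di dj : ℤ) (e e' : ℕ) : Bool :=
  (decide (di = 0) && decide (dj = 0) && (decide ((e, e') ∈ conf0) || decide ((e', e) ∈ conf0))) ||
  (decide (di = 0) && decide (dj = 1) && decide (e = 7) && (decide (e' = 1) || decide (e' = 4))) ||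
  (decide (di = 0) && decide (dj = -1) && decide (e' = 7) && (decide (e = 1) || decide (e = 4))) ||
  (decide (di = 1) && decide (dj = 0) && decide (e = 11) && decide (e' = 13)) ||
  (decide (di = -1) && decide (dj = 0) && decide (e' = 11) && decide (e = 13))

theorem near_ok : ∀ di ∈ ([-1, 0, 1] : List ℤ), ∀ dj ∈ ([-1, 0, 1] : List ℤ), ∀ e ∈ ends,
    ∀ e' ∈ ends, (di = 0 ∧ dj = 0 ∧ grp e = grp e') ∨ conf di dj e e' = true ∨
      sepB (base (grp e)) (base e) (off di dj + base (grp e')) (off di dj + base e') = true := by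
  decide +kernel

instance (a b c d : Z2) : Decidable (CrossZ a b c d) := by unfold CrossZ; infer_instance

theorem cross0 : ∀ p ∈ conf0, CrossZ (base (grp p.1)) (base p.1) (base (grp p.2)) (base p.2) := by
  decide +kernel

theorem crossU : CrossZ (base 5) (base 7) (off 0 1 + base 0) (off 0 1 + base 1) ∧
    CrossZ (base 5) (base 7) (off 0 1 + base 0) (off 0 1 + base 4) := by decide +kernel

theorem crossR : CrossZ (base 8) (base 11) (off 1 0 + base 12) (off 1 0 + base 13) := by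
  decide +kernel

theorem base_bd : ∀ s < 16, -62 ≤ (base s).1 - (base s).2 ∧ (base s).1 - (base s).2 ≤ 41 ∧
    -1 ≤ (base s).2 ∧ (base s).2 ≤ 133 := by decide +kernel

theorem base_lt : ∀ e ∈ ends, (base (grp e)).1 < (base e).1 ∧ grp e < e ∧ e < 16 ∧
    grp e ∉ ends := by decide +kernel

theorem not_cross_of_sep {a b c d n : Z2} (h1 : dot n a < dot n c) (h2 : dot n a < dot n d)
    (h3 : dot n b < dot n c) (h4 : dot n b < dot n d) : ¬ CrossZ a b c d := by
  intro h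
  obtain ⟨x, hx, hx'⟩ := cross_emb h
  obtain ⟨s, s0, s1, e⟩ := mem_open.1 hx
  obtain ⟨t, t0, t1, e'⟩ := mem_open.1 hx'
  have k1 : ((dot n a : ℤ) : ℝ) < dot n c := by exact_mod_cast h1
  have k2 : ((dot n a : ℤ) : ℝ) < dot n d := by exact_mod_cast h2
  have k3 : ((dot n b : ℤ) : ℝ) < dot n c := by exact_mod_cast h3
  have k4 : ((dot n b : ℤ) : ℝ) < dot n d := by exact_mod_cast h4
  have e2 := e.symm.trans e'
  have e3 : (1 - s) * ((dot n a : ℤ) : ℝ) + s * dot n b = (1 - t) * dot n c + t * dot n d := by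
    have x1 := congrArg Prod.fst e2
    have x2 := congrArg Prod.snd e2
    simp only [lin, emb] at x1 x2
    simp only [dot]
    push_cast
    linear_combination (n.1 : ℝ) * x1 + (n.2 : ℝ) * x2
  have u1 := mul_pos (mul_pos (sub_pos.2 s1) (sub_pos.2 t1)) (sub_pos.2 k1)
  have u2 := mul_pos (mul_pos (sub_pos.2 s1) t0) (sub_pos.2 k2)
  have u3 := mul_pos (mul_pos s0 (sub_pos.2 t1)) (sub_pos.2 k3)
  have u4 := mul_pos (mul_pos s0 t0) (sub_pos.2 k4)
  nlinarith

theorem CrossZ.add {a b c d : Z2} (h : CrossZ a b c d) (v : Z2) :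
    CrossZ (v + a) (v + b) (v + c) (v + d) := by
  simpa only [CrossZ, Cfg.dz_add] using h

/-- unperturbed position of a site -/
def Qz (n k : ℕ) : Z2 := off ((k / 16 % n : ℕ) : ℤ) ((k / 16 / n : ℕ) : ℤ) + base (k % 16)

def Lq (N : ℕ) : ℤ := 1000 * (N : ℤ) ^ 4

/-- position of a site -/
def Pz (n N k : ℕ) : Z2 := Lq N • Qz n k + ((k : ℤ), (k : ℤ) ^ 2)

def okB (first last F G : Bool) (e : ℕ) : Bool :=
  decide (e ∈ ends) && (!decide (e = 9) || !G) && (!decide (e = 10) || G) &&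
    (!decide (e = 11) || !last) && (!decide (e = 13) || !first) && (!decide (e = 14) || !F) &&
    (!decide (e = 15) || F)

def optB (n N : ℕ) (F G : ℕ → ℕ → Bool) (t y : ℕ) : Bool :=
  decide (y < N) && decide (t / 16 = y / 16) && decide (t % 16 = grp (y % 16)) &&
    okB (decide (y / 16 % n = 0)) (decide (y / 16 % n + 1 = n)) (F (y / 16 % n) (y / 16 / n))
      (G (y / 16 % n) (y / 16 / n)) (y % 16)

def Mz (N : ℕ) : ℤ := 200000 * (N : ℤ) ^ 5
def Lz (N : ℕ) : ℤ := 4 * Mz N ^ 2 + 1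
def c0z (N : ℕ) : ℤ := 4 * Lz N ^ N * Mz N + 2
def Cz (N : ℕ) : ℤ := c0z N * Lz N ^ N
def Az (N : ℕ) : ℤ := Cz N * Mz N + 1
def Bz (N : ℕ) : ℤ :=
  8 * Mz N * (Cz N * Mz N) + 8 * (Cz N * Mz N) ^ 2 + 2 * Az N + Mz N + 2 * (Cz N * Mz N)

def cfg (n r : ℕ) (F G : ℕ → ℕ → Bool) : Cfg where
  N := 16 * (n * r)
  P := Pz n (16 * (n * r))
  opt t y := optB n (16 * (n * r)) F G t y = true
  M := Mz (16 * (n * r))
  L := Lz (16 * (n * r))
  g k := Lz (16 * (n * r)) ^ min k (16 * (n * r))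
  c0 := c0z (16 * (n * r))
  C := Cz (16 * (n * r))
  B := Bz (16 * (n * r))
  Θ := 2 * Az (16 * (n * r))

theorem optB_iff {n N : ℕ} {F G : ℕ → ℕ → Bool} {t y : ℕ} : optB n N F G t y = true ↔
    y < N ∧ t / 16 = y / 16 ∧ t % 16 = grp (y % 16) ∧
    okB (decide (y / 16 % n = 0)) (decide (y / 16 % n + 1 = n)) (F (y / 16 % n) (y / 16 / n))
      (G (y / 16 % n) (y / 16 / n)) (y % 16) = true := by
  simp only [optB, Bool.and_eq_true, decide_eq_true_eq, and_assoc]

theorem okB_mem {a b c d : Bool} {e : ℕ} (h : okB a b c d e = true) : e ∈ ends := by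
  simp only [okB, Bool.and_eq_true, decide_eq_true_eq] at h
  exact h.1.1.1.1.1.1

theorem Qz_bd {n r i j : ℕ} (hi : i < 16 * (n * r)) (hj : j < 16 * (n * r)) :
    Bd (100 * ((16 * (n * r) : ℕ) : ℤ)) (Qz n i - Qz n j) := by
  have hn : 0 < n := by
    rcases Nat.eq_zero_or_pos n with rfl | h
    · simp at hi
    · exact h
  have key : ∀ k < 16 * (n * r), k / 16 % n + k / 16 / n ≤ 2 * (n * r) ∧ 1 ≤ n * r := by
    intro k hk
    have h1 : k / 16 % n ≤ k / 16 := Nat.mod_le _ _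
    have h2 : k / 16 / n ≤ k / 16 := Nat.div_le_self _ _
    omega
  obtain ⟨a1, a2⟩ := key i hi
  obtain ⟨b1, -⟩ := key j hj
  have c1 := base_bd (i % 16) (Nat.mod_lt _ (by norm_num))
  have c2 := base_bd (j % 16) (Nat.mod_lt _ (by norm_num))
  generalize n * r = m at *
  simp only [Qz]
  generalize i / 16 % n = i1 at *
  generalize i / 16 / n = i2 at *
  generalize j / 16 % n = j1 at *
  generalize j / 16 / n = j2 at *
  constructor
  · simp only [off, Prod.fst_sub, Prod.fst_add]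
    rw [abs_le]
    constructor <;> omega
  · simp only [off, Prod.snd_sub, Prod.snd_add]
    rw [abs_le]
    constructor <;> omega

theorem pert_bd {N k : ℕ} (hk : k < N) : Bd ((N : ℤ) ^ 2) ((k : ℤ), (k : ℤ) ^ 2) := by
  have h1 : (k : ℤ) < N := by exact_mod_cast hk
  have h2 : (0 : ℤ) ≤ k := by positivity
  constructor
  · simp only
    rw [abs_of_nonneg h2]; nlinarith
  · simp only
    rw [abs_of_nonneg (by positivity)]; nlinarith

theorem cfg_good {n r : ℕ} (hn : 0 < n) (hr : 0 < r) (F G : ℕ → ℕ → Bool) : (cfg n r F G).Good := by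
  have hnr : 0 < n * r := Nat.mul_pos hn hr
  set N := 16 * (n * r) with hN
  have N16 : (16 : ℤ) ≤ N := by exact_mod_cast (by omega : 16 ≤ N)
  have hM : 1 ≤ Mz N := by
    have : (1 : ℤ) ≤ (N : ℤ) ^ 5 := one_le_pow₀ (by linarith)
    simp only [Mz]; linarith
  have hL : 1 ≤ Lz N := by simp only [Lz]; nlinarith
  have hG : 1 ≤ Lz N ^ N := one_le_pow₀ hL
  have hc0 : 4 * Mz N + 2 ≤ c0z N := by simp only [c0z]; nlinarith
  have hLq : (N : ℤ) ^ 3 < Lq N := by
    have : (0 : ℤ) < (N : ℤ) ^ 3 := by positivity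
    simp only [Lq]; nlinarith
  refine ⟨?_, ?_, ?_, ?_, hM, ?_, ?_, ?_, ?_, ?_, ?_, ?_, ?_, le_rfl⟩
  · intro i hi j hj k hk ij ik jk e
    change dz (Pz n N i) (Pz n N j) (Pz n N k) = 0 at e
    simp only [Pz] at e
    rw [dz_expand] at e
    have e2 : cr (((j : ℤ), (j : ℤ) ^ 2) - ((i : ℤ), (i : ℤ) ^ 2))
        (((k : ℤ), (k : ℤ) ^ 2) - ((i : ℤ), (i : ℤ) ^ 2)) = ((j : ℤ) - i) * (k - i) * (k - j) := by
      simp only [cr, Prod.fst_sub, Prod.snd_sub]; ring
    rw [e2] at e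
    have hd : Lq N ∣ ((j : ℤ) - i) * (k - i) * (k - j) :=
      ⟨-(Lq N * dz (Qz n i) (Qz n j) (Qz n k) +
        (cr (Qz n j - Qz n i) (((k : ℤ), (k : ℤ) ^ 2) - ((i : ℤ), (i : ℤ) ^ 2)) +
          cr (((j : ℤ), (j : ℤ) ^ 2) - ((i : ℤ), (i : ℤ) ^ 2)) (Qz n k - Qz n i))),
        by linear_combination e⟩
    have hb : ∀ a b : ℕ, a < N → b < N → |(a : ℤ) - b| ≤ N := by
      intro a b ha hb
      rw [abs_le]; constructor <;> omega
    have h1 : |((j : ℤ) - i) * (k - i) * (k - j)| ≤ (N : ℤ) ^ 3 := by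
      rw [abs_mul, abs_mul]
      calc _ ≤ (N : ℤ) * N * N := by
            gcongr
            · exact hb _ _ hj hi
            · exact hb _ _ hk hi
            · exact hb _ _ hk hj
        _ = _ := by ring
    have h2 := Int.eq_zero_of_abs_lt_dvd hd (by linarith)
    simp only [mul_eq_zero] at h2
    omega
  · intro i hi j hj ij e
    change (Pz n N i).1 = (Pz n N j).1 at e
    simp only [Pz, Prod.fst_add, Prod.smul_fst, smul_eq_mul] at e
    have hd : Lq N ∣ (i : ℤ) - j := ⟨(Qz n j).1 - (Qz n i).1, by linarith⟩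
    have hi' : i < N := hi
    have hj' : j < N := hj
    have h1 : |(i : ℤ) - j| ≤ N := by rw [abs_le]; constructor <;> omega
    have h3 : (N : ℤ) ≤ (N : ℤ) ^ 3 := le_self_pow₀ (by linarith) (by norm_num)
    have h2 := Int.eq_zero_of_abs_lt_dvd hd (by linarith)
    omega
  · intro i hi j hj
    change Bd (Mz N) (Pz n N i - Pz n N j)
    have h1 := Qz_bd hi hj
    have h2 := (pert_bd hi).sub (pert_bd hj)
    have hq : 0 ≤ Lq N := by simp only [Lq]; positivity
    have key : ∀ x y : ℤ, |x| ≤ 100 * (N : ℤ) → |y| ≤ 2 * (N : ℤ) ^ 2 → |Lq N * x + y| ≤ Mz N := by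
      intro x y hx hy
      have t1 := abs_add_le (Lq N * x) y
      rw [abs_mul, abs_of_nonneg hq] at t1
      have t2 := mul_le_mul_of_nonneg_left hx hq
      have t3 : (N : ℤ) ^ 2 ≤ (N : ℤ) ^ 5 := pow_le_pow_right₀ (by linarith) (by norm_num)
      simp only [Lq, Mz] at *
      nlinarith
    constructor
    · have := key _ _ h1.1 h2.1
      simp only [Pz, Prod.fst_add, Prod.smul_fst, smul_eq_mul, Prod.fst_sub] at this ⊢
      convert this using 2; ring
    · have := key _ _ h1.2 h2.2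
      simp only [Pz, Prod.snd_add, Prod.smul_snd, smul_eq_mul, Prod.snd_sub] at this ⊢
      convert this using 2; ring
  · intro t y ho
    obtain ⟨h1, h2, h3, h4⟩ := optB_iff.1 ho
    obtain ⟨b1, b2, -, -⟩ := base_lt _ (okB_mem h4)
    have ty : t < y := by omega
    refine ⟨lt_trans ty h1, h1, ?_, ?_⟩
    · change (Pz n N t).1 < (Pz n N y).1
      simp only [Pz, Qz, Prod.fst_add, Prod.smul_fst, smul_eq_mul, h2, h3]
      have hq : 0 ≤ Lq N := by simp only [Lq]; positivity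
      have := mul_le_mul_of_nonneg_left b1.le hq
      have : (t : ℤ) < y := by exact_mod_cast ty
      nlinarith
    · intro y' ho'
      obtain ⟨-, -, k3, k4⟩ := optB_iff.1 ho'
      exact (base_lt _ (okB_mem k4)).2.2.2 (k3 ▸ okB_mem h4)
  · change 4 * Mz N ^ 2 < Lz N
    simp only [Lz]; linarith
  · intro i
    exact one_le_pow₀ hL
  · intro i j ij hj
    change Lz N * Lz N ^ min i N ≤ Lz N ^ min j N
    have hj' : j < N := hj
    rw [← pow_succ']
    exact pow_le_pow_right₀ hL (by omega)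
  · change 4 * Mz N ≤ c0z N
    linarith
  · intro i _
    change c0z N * Lz N ^ min i N ≤ c0z N * Lz N ^ N
    exact mul_le_mul_of_nonneg_left (pow_le_pow_right₀ hL (min_le_right _ _)) (by linarith)
  · change 1 ≤ c0z N * Lz N ^ N
    nlinarith
  · change 2 * Cz N * Mz N < 2 * Az N
    simp only [Az]; linarith
  · change 2 * (2 * Az N) ≤ c0z N ^ 2
    have e : c0z N ^ 2 = 4 * (Cz N * Mz N) + 2 * c0z N := by
      simp only [Cz]
      have : c0z N = 4 * Lz N ^ N * Mz N + 2 := rfl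
      linear_combination c0z N * this
    rw [e]
    simp only [Az]; linarith

theorem cross_lift {n r a b c d : ℕ} (ha : a < 16 * (n * r)) (hb : b < 16 * (n * r))
    (hc : c < 16 * (n * r)) (hd : d < 16 * (n * r))
    (h : CrossZ (Qz n a) (Qz n b) (Qz n c) (Qz n d)) :
    CrossZ (Pz n (16 * (n * r)) a) (Pz n (16 * (n * r)) b) (Pz n (16 * (n * r)) c)
      (Pz n (16 * (n * r)) d) := by
  set N := 16 * (n * r) with hN
  have N16 : (16 : ℤ) ≤ N := by exact_mod_cast (by omega : 16 ≤ N)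
  have hq : 0 < Lq N := by simp only [Lq]; positivity
  have hpos : 0 < Lq N ^ 2 - 8 * (100 * (N : ℤ)) * (N : ℤ) ^ 2 * Lq N - 8 * ((N : ℤ) ^ 2) ^ 2 := by
    have h3 : (0 : ℤ) < (N : ℤ) ^ 3 := by positivity
    have h4 : 16 * (N : ℤ) ^ 3 ≤ (N : ℤ) ^ 4 := by nlinarith
    have h5 : 800 * (N : ℤ) ^ 3 + 8 * (N : ℤ) ^ 4 < Lq N := by simp only [Lq]; linarith
    have h6 := mul_lt_mul_of_pos_left h5 hq
    have h7 : 8 * (N : ℤ) ^ 4 ≤ Lq N * (8 * (N : ℤ) ^ 4) := by nlinarith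
    nlinarith
  have key : ∀ x y z, x < N → y < N → z < N → dz (Qz n x) (Qz n y) (Qz n z) ≠ 0 →
      0 < dz (Pz n N x) (Pz n N y) (Pz n N z) * dz (Qz n x) (Qz n y) (Qz n z) := by
    intro x y z hx hy hz hne
    obtain ⟨p1, p2⟩ := pert (B := Lq N) hq.le (Qz_bd hy hx) (Qz_bd hz hx) (pert_bd hx) (pert_bd hy)
      (pert_bd hz)
    rcases lt_or_gt_of_ne hne with hd | hd
    · have := p2 hd
      exact mul_pos_of_neg_of_neg (by simp only [Pz]; linarith) hd
    · have := p1 hd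
      exact mul_pos (by simp only [Pz]; linarith) hd
  obtain ⟨h1, h2⟩ := h
  exact ⟨(Cfg.sign_iff (key _ _ _ ha hb hc (left_ne_zero_of_mul h1.ne))
      (key _ _ _ ha hb hd (right_ne_zero_of_mul h1.ne))).2 h1,
    (Cfg.sign_iff (key _ _ _ hc hd ha (left_ne_zero_of_mul h2.ne))
      (key _ _ _ hc hd hb (right_ne_zero_of_mul h2.ne))).2 h2⟩

theorem sep_lift {n N a b c d : ℕ} (ha : a < N) (hb : b < N) (hc : c < N) (hd : d < N)
    (h : Sep (Qz n a) (Qz n b) (Qz n c) (Qz n d)) :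
    ¬ CrossZ (Pz n N a) (Pz n N b) (Pz n N c) (Pz n N d) := by
  obtain ⟨v, hv, h1, h2, h3, h4⟩ := h
  have N1 : (1 : ℤ) ≤ N := by exact_mod_cast (by omega : 1 ≤ N)
  have key : ∀ x y, x < N → y < N → dot v (Qz n x) < dot v (Qz n y) →
      dot v (Pz n N x) < dot v (Pz n N y) := by
    intro x y hx hy hlt
    have k := (pert_bd hy).sub (pert_bd hx)
    have k1 : |v.1 * ((y : ℤ) - x)| ≤ 200 * (2 * (N : ℤ) ^ 2) := by
      rw [abs_mul]; exact mul_le_mul hv.1 k.1 (abs_nonneg _) (by norm_num)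
    have k2 : |v.2 * ((y : ℤ) ^ 2 - (x : ℤ) ^ 2)| ≤ 200 * (2 * (N : ℤ) ^ 2) := by
      rw [abs_mul]; exact mul_le_mul hv.2 k.2 (abs_nonneg _) (by norm_num)
    have hq : 0 ≤ Lq N := by simp only [Lq]; positivity
    have k3 := mul_le_mul_of_nonneg_left (show dot v (Qz n x) + 1 ≤ dot v (Qz n y) by omega) hq
    have k4 : (N : ℤ) ^ 2 ≤ (N : ℤ) ^ 4 := pow_le_pow_right₀ N1 (by norm_num)
    have k5 : (0 : ℤ) < (N : ℤ) ^ 2 := by positivity
    have k6 : Lq N = 1000 * (N : ℤ) ^ 4 := rfl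
    have k7 := (abs_le.1 k1).1
    have k8 := (abs_le.1 k2).1
    simp only [dot, Pz, Prod.fst_add, Prod.snd_add, Prod.smul_fst, Prod.smul_snd, smul_eq_mul] at k3 ⊢
    linarith
  exact not_cross_of_sep (key _ _ ha hc h1) (key _ _ ha hd h2) (key _ _ hb hc h3) (key _ _ hb hd h4)

end Pool.Agent.H579Z.Area
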